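import Pool.Agent.Lib.MP_3e612f_nt.EM.U.Words

/-!
Local version of `EM/U/Words.lean`: functions of words of phases with interactions of `d` windows, the phases
may depend on the interval.
-/

set_option autoImplicit false

namespace Pool.Agent.Lib.MP_3e612f_nt.LOM

open Finset
open Pool.Agent.Lib.MP_3e612f_nt.PI (ee mc Words_hom Words_ind Words_bad fourier_exists
  embed_exists)
open Pool.Agent.Lib.MP_3e612f_nt.EM

/-- the local theorem for one character -/
def LMain (q m d : ℕ) : Prop :=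
  ∀ (M : ℕ) [NeZero M], ∀ ε : ℝ, 0 < ε → ∃ h0 : ℕ, ∀ h ≥ h0, ∃ X0 : ℕ, ∀ X ≥ X0,
    ∀ (L s : ℕ → ℕ) (F : ℕ → (Fin d → ℕ) → (Fin d → ℕ) → ZMod M),
      ∑ x ∈ range X, ‖∑ n ∈ range h, mc (x + n) * ee (phm q m d (L x) (F x) (n + s x))‖ ≤ ε * h * X

theorem part_gen (q m d K M k : ℕ) [NeZero M] [NeZero (q ^ K)] [NeZero (M * q ^ K)] (hq : 2 ≤ q)
    (hm : q ∣ m) (hd : 1 ≤ d) (ι : Type) [Fintype ι] [DecidableEq ι] (L v : ℕ) (hv : v + k ≤ q ^ K) (hv' : v < q ^ K)
    (F : (Fin d → ℕ) → (Fin d → ℕ) → ι → ZMod M)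
    (w : (Fin k → ι → ZMod M) → ℂ) (hw : ∀ y, ‖w y‖ ≤ 1) :
    ∃ (L' : (Fin k × ι → ZMod M) → ZMod (q ^ K) → ℕ)
      (F' : (Fin k × ι → ZMod M) → ZMod (q ^ K) → (Fin d → ℕ) → (Fin d → ℕ) → ZMod (M * q ^ K)),
      ∀ (S : Finset ℕ) (c : ℕ → ℂ) (s : ℕ), ‖∑ n ∈ S.filter (fun n => (n + s) % q ^ K = v),
        c n * w (fun j => phm q m d L F (n + s + j))‖ ≤
          ∑ t : Fin k × ι → ZMod M, ∑ b : ZMod (q ^ K), ((q ^ K : ℕ) : ℝ)⁻¹ *
            ‖∑ n ∈ S, c n * ee (phm q m d (L' t b) (F' t b) (n + s))‖ := by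
  classical
  choose f hf using fun j : Fin k => shift_lowm hq m d L K v j (by have := j.2; omega) F
  obtain ⟨a, ha, hfou⟩ := fourier_exists (ι := Fin k × ι) M (fun y => w (fun j i => y (j, i)))
    (fun y => hw _)
  obtain ⟨ψ, hψ⟩ := Words_hom M (q ^ K) (M * q ^ K) rfl
  obtain ⟨χ, hχ⟩ := Words_hom (q ^ K) M (M * q ^ K) (mul_comm _ _)
  have eadd : ∀ {m : ℕ} [NeZero m] (x y : ZMod m), ee (x + y) = ee x * ee y := by
    intro m _ x y
    unfold ee
    exact AddChar.map_add_eq_mul _ _ _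
  have enorm : ∀ {m : ℕ} [NeZero m] (x : ZMod m), ‖ee x‖ = 1 := by
    intro m _ x
    unfold ee
    exact AddChar.norm_apply _ _
  have key : ∀ (t : Fin k × ι → ZMod M) (b : ZMod (q ^ K)), ∃ (L' : ℕ)
      (F' : (Fin d → ℕ) → (Fin d → ℕ) → ZMod (M * q ^ K)), ∀ n : ℕ,
      ee (∑ x, t x * f x.1 n x.2) * ee (b * (n : ZMod (q ^ K))) = ee (phm q m d L' F' n) := by
    intro t b
    have h1 : IsPhm q m d (fun n => ∑ x : Fin k × ι, t x * f x.1 n x.2) := by
      apply IsPhm.sum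
      intro x _
      exact IsPhm.map ((AddMonoidHom.mulLeft (t x)).comp (Pi.evalAddMonoidHom _ x.2)) (hf x.1).1
    have h2 := IsPhm.map ψ h1
    have h3 := low_digitsm (q := q) hm d K hd (M * q ^ K) (χ b)
    obtain ⟨L', F', h4⟩ := IsPhm.add h2 h3
    refine ⟨L', F', fun n => ?_⟩
    have h5 := congrFun h4 n
    rw [← h5, eadd, hψ]
    congr 1
    have h6 : χ b * ((n % q ^ K : ℕ) : ZMod (M * q ^ K)) = χ (b * (n : ZMod (q ^ K))) := by
      have h7 : b * (n : ZMod (q ^ K)) = (n % q ^ K) • b := by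
        rw [nsmul_eq_mul, ZMod.natCast_mod, mul_comm]
      rw [h7, map_nsmul, nsmul_eq_mul]
      exact mul_comm _ _
    rw [h6, hχ]
  choose L' F' hLF using key
  refine ⟨L', F', fun S c s => ?_⟩
  have hQ0 : ((q ^ K : ℕ) : ℂ) ≠ 0 := by exact_mod_cast NeZero.ne (q ^ K)
  have hpt : ∀ n ∈ S, (if (n + s) % q ^ K = v then
      c n * w (fun j => phm q m d L F (n + s + j)) else 0) =
      ∑ t : Fin k × ι → ZMod M, ∑ b : ZMod (q ^ K),
        (a t * (((q ^ K : ℕ) : ℂ)⁻¹ * ee (-(b * (v : ZMod (q ^ K)))))) *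
          (c n * ee (phm q m d (L' t b) (F' t b) (n + s))) := by
    intro n _
    have h1 : ∀ (t : Fin k × ι → ZMod M) (b : ZMod (q ^ K)),
        (a t * (((q ^ K : ℕ) : ℂ)⁻¹ * ee (-(b * (v : ZMod (q ^ K)))))) *
          (c n * ee (phm q m d (L' t b) (F' t b) (n + s))) =
        (c n * ((q ^ K : ℕ) : ℂ)⁻¹) * ((a t * ee (∑ x, t x * f x.1 (n + s) x.2)) *
          ee (b * (((n + s : ℕ) : ZMod (q ^ K)) - (v : ZMod (q ^ K))))) := by
      intro t b
      rw [← hLF t b, mul_sub, sub_eq_add_neg, eadd]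
      ring
    simp_rw [h1, ← mul_sum, ← sum_mul]
    rw [Words_ind (q ^ K) (n + s) v hv']
    split_ifs with h2
    · have h3 := hfou (fun x => f x.1 (n + s) x.2)
      simp only at h3
      rw [← h3]
      have h4 : (fun j : Fin k => phm q m d L F (n + s + j)) = fun j i => f j (n + s) i := by
        funext j
        exact (hf j).2 (n + s) h2
      rw [h4]
      field_simp
    · simp
  rw [sum_filter, sum_congr rfl hpt, sum_comm]
  refine (norm_sum_le _ _).trans (Finset.sum_le_sum fun t _ => ?_)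
  rw [sum_comm]
  refine (norm_sum_le _ _).trans (Finset.sum_le_sum fun b _ => ?_)
  rw [← mul_sum, norm_mul, norm_mul, norm_mul, enorm, mul_one, norm_inv, Complex.norm_natCast]
  refine mul_le_mul_of_nonneg_right ?_ (norm_nonneg _)
  exact mul_le_of_le_one_left (by positivity) (ha t)

theorem bad_card (Q h s k : ℕ) (hQ : 0 < Q) (hk : k ≤ Q) :
    ((range h).filter (fun n => ¬ ((n + s) % Q + k ≤ Q))).card ≤ k * (h / Q + 2) := by
  refine le_trans (le_of_eq ?_) (Words_bad Q h (s + Q - 1) k hQ hk)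
  refine Finset.card_bij (fun n _ => n + 1) ?_ (fun a _ b _ h => by omega) ?_
  · intro n hn
    rw [mem_filter, mem_range] at hn
    rw [mem_filter, mem_Icc]
    refine ⟨⟨by omega, by omega⟩, ?_⟩
    have e : n + 1 + (s + Q - 1) = n + s + Q := by omega
    rw [e, Nat.add_mod_right]
    exact hn.2
  · intro b hb
    rw [mem_filter, mem_Icc] at hb
    refine ⟨b - 1, ?_, by omega⟩
    rw [mem_filter, mem_range]
    refine ⟨by omega, ?_⟩
    have e : b + (s + Q - 1) = (b - 1 + s) + Q := by omega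
    rw [e, Nat.add_mod_right] at hb
    exact hb.2

theorem mc_norm_le (n : ℕ) : ‖mc n‖ ≤ 1 := by
  unfold mc
  rw [Complex.norm_intCast]
  exact_mod_cast ArithmeticFunction.abs_moebius_le_one

theorem vec_local (q m d M k : ℕ) [NeZero M] (hq : 2 ≤ q) (hm : q ∣ m) (hd : 1 ≤ d)
    (hmain : LMain q m d) (ι : Type) [Fintype ι] {ε : ℝ} (hε : 0 < ε) :
    ∃ h0 : ℕ, ∀ h ≥ h0, ∃ X0 : ℕ, ∀ X ≥ X0, ∀ (L s : ℕ → ℕ) (F : ℕ → (Fin d → ℕ) → (Fin d → ℕ) → ι → ZMod M)
      (w : ℕ → (Fin k → ι → ZMod M) → ℂ), (∀ x y, ‖w x y‖ ≤ 1) →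
      ∑ x ∈ range X, ‖∑ n ∈ range h, mc (x + n) * w x (fun j => phm q m d (L x) (F x) (n + s x + j))‖ ≤
        ε * h * X := by
  classical
  -- choice of K
  obtain ⟨K, hK⟩ : ∃ K : ℕ, max (k : ℝ) (4 * k / ε) < (q : ℝ) ^ K :=
    pow_unbounded_of_one_lt _ (by exact_mod_cast (by omega : 1 < q))
  have hQpos : 0 < q ^ K := by positivity
  have : NeZero (q ^ K) := ⟨hQpos.ne'⟩
  have : NeZero (M * q ^ K) := ⟨mul_ne_zero (NeZero.ne M) hQpos.ne'⟩
  have hkQ : k ≤ q ^ K := by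
    have : (k : ℝ) ≤ ((q ^ K : ℕ) : ℝ) := by
      push_cast
      exact le_trans (le_max_left _ _) hK.le
    exact_mod_cast this
  have hkε : (k : ℝ) ≤ ε / 4 * ((q ^ K : ℕ) : ℝ) := by
    have h := le_trans (le_max_right _ _) hK.le
    rw [div_le_iff₀ hε] at h
    push_cast
    linarith
  set T : ℕ := Fintype.card (Fin k × ι → ZMod M) with hT
  have hTpos : 0 < T := Fintype.card_pos
  obtain ⟨h0, hh0⟩ := hmain (M * q ^ K) (ε / (2 * (q ^ K : ℕ) * T)) (by positivity)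
  obtain ⟨h1, hh1⟩ := exists_nat_ge (8 * k / ε)
  refine ⟨max h0 h1, fun h hh => ?_⟩
  obtain ⟨X0, hX0⟩ := hh0 h (le_trans (le_max_left _ _) hh)
  refine ⟨X0, fun X hX L s F w hw => ?_⟩
  have hNN1 : (8 * k : ℝ) ≤ ε * h := by
    have : (8 * k / ε : ℝ) ≤ h := le_trans hh1 (by exact_mod_cast le_trans (le_max_right _ _) hh)
    rw [div_le_iff₀ hε] at this
    linarith
  have hpart : ∀ x v : ℕ, ∃ (L' : (Fin k × ι → ZMod M) → ZMod (q ^ K) → ℕ)
      (F' : (Fin k × ι → ZMod M) → ZMod (q ^ K) → (Fin d → ℕ) → (Fin d → ℕ) → ZMod (M * q ^ K)),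
      v + k ≤ q ^ K → v < q ^ K → ∀ (S : Finset ℕ) (c : ℕ → ℂ) (s : ℕ),
        ‖∑ n ∈ S.filter (fun n => (n + s) % q ^ K = v),
          c n * w x (fun j => phm q m d (L x) (F x) (n + s + j))‖ ≤
          ∑ t : Fin k × ι → ZMod M, ∑ b : ZMod (q ^ K), ((q ^ K : ℕ) : ℝ)⁻¹ *
            ‖∑ n ∈ S, c n * ee (phm q m d (L' t b) (F' t b) (n + s))‖ := by
    intro x v
    by_cases hv : v + k ≤ q ^ K ∧ v < q ^ K
    · obtain ⟨L', F', h⟩ := part_gen q m d K M k hq hm hd ι (L x) v hv.1 hv.2 (F x) (w x) (hw x)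
      exact ⟨L', F', fun _ _ => h⟩
    · exact ⟨fun _ _ => 0, fun _ _ _ _ => 0, fun h1 h2 => absurd ⟨h1, h2⟩ hv⟩
  choose L' F' hLF using hpart
  have hpt : ∀ x : ℕ, ‖∑ n ∈ range h, mc (x + n) * w x (fun j => phm q m d (L x) (F x) (n + s x + j))‖ ≤
      ε / 2 * h + ∑ v ∈ (range (q ^ K)).filter (fun v => v + k ≤ q ^ K),
        ∑ t : Fin k × ι → ZMod M, ∑ b : ZMod (q ^ K), ((q ^ K : ℕ) : ℝ)⁻¹ *
            ‖∑ n ∈ range h, mc (x + n) * ee (phm q m d (L' x v t b) (F' x v t b) (n + s x))‖ := by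
    intro x
    set W : ℕ → ℂ := fun n => mc (x + n) * w x (fun j => phm q m d (L x) (F x) (n + s x + j)) with hW
    have hWn : ∀ n, ‖W n‖ ≤ 1 := by
      intro n
      rw [hW]
      simp only [norm_mul]
      calc _ ≤ 1 * 1 := mul_le_mul (mc_norm_le _) (hw _ _) (norm_nonneg _) (by norm_num)
        _ = 1 := one_mul _
    have hsplit : ∑ n ∈ range h, W n =
        ∑ n ∈ (range h).filter (fun n => (n + s x) % q ^ K + k ≤ q ^ K), W n +
        ∑ n ∈ (range h).filter (fun n => ¬ ((n + s x) % q ^ K + k ≤ q ^ K)), W n :=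
      (sum_filter_add_sum_filter_not _ _ _).symm
    have hbad : ‖∑ n ∈ (range h).filter (fun n => ¬ ((n + s x) % q ^ K + k ≤ q ^ K)), W n‖
        ≤ ε / 2 * h := by
      calc _ ≤ ∑ n ∈ (range h).filter (fun n => ¬ ((n + s x) % q ^ K + k ≤ q ^ K)), ‖W n‖ :=
            norm_sum_le _ _
        _ ≤ ∑ n ∈ (range h).filter (fun n => ¬ ((n + s x) % q ^ K + k ≤ q ^ K)), (1:ℝ) :=
            sum_le_sum (fun n _ => hWn n)
        _ = (((range h).filter (fun n => ¬ ((n + s x) % q ^ K + k ≤ q ^ K))).card : ℝ) := by simp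
        _ ≤ ((k * (h / q ^ K + 2) : ℕ) : ℝ) := by
            exact_mod_cast bad_card (q ^ K) h (s x) k hQpos hkQ
        _ ≤ k * ((h : ℝ) / (q ^ K : ℕ) + 2) := by
            push_cast
            have h := Nat.cast_div_le (α := ℝ) (m := h) (n := q ^ K)
            push_cast at h
            gcongr
        _ = k * ((h : ℝ) / (q ^ K : ℕ)) + 2 * k := by ring
        _ ≤ ε / 4 * h + ε / 4 * h := by
            have hQ' : (0:ℝ) < ((q ^ K : ℕ) : ℝ) := by exact_mod_cast hQpos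
            have h1 : (k : ℝ) * ((h : ℝ) / (q ^ K : ℕ)) ≤ ε / 4 * h := by
              rw [mul_div_assoc', div_le_iff₀ hQ']
              have hN' : (0:ℝ) ≤ h := Nat.cast_nonneg h
              nlinarith
            linarith
        _ = ε / 2 * h := by ring
    have hgood : ‖∑ n ∈ (range h).filter (fun n => (n + s x) % q ^ K + k ≤ q ^ K), W n‖ ≤
        ∑ v ∈ (range (q ^ K)).filter (fun v => v + k ≤ q ^ K),
        ∑ t : Fin k × ι → ZMod M, ∑ b : ZMod (q ^ K), ((q ^ K : ℕ) : ℝ)⁻¹ *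
            ‖∑ n ∈ range h, mc (x + n) * ee (phm q m d (L' x v t b) (F' x v t b) (n + s x))‖ := by
      have h1 : ∑ n ∈ (range h).filter (fun n => (n + s x) % q ^ K + k ≤ q ^ K), W n =
          ∑ v ∈ (range (q ^ K)).filter (fun v => v + k ≤ q ^ K),
            ∑ n ∈ (range h).filter (fun n => (n + s x) % q ^ K = v), W n := by
        rw [← sum_fiberwise_of_maps_to (g := fun n => (n + s x) % q ^ K)
          (t := (range (q ^ K)).filter (fun v => v + k ≤ q ^ K))]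
        · apply sum_congr rfl
          intro v hv
          rw [mem_filter] at hv
          apply sum_congr _ (fun _ _ => rfl)
          ext n
          simp only [mem_filter, mem_range]
          constructor
          · rintro ⟨⟨h1, h2⟩, h3⟩
            exact ⟨h1, h3⟩
          · rintro ⟨h1, h3⟩
            exact ⟨⟨h1, by rw [h3]; exact hv.2⟩, h3⟩
        · intro n hn
          rw [mem_filter] at hn
          rw [mem_filter, mem_range]
          exact ⟨Nat.mod_lt _ hQpos, hn.2⟩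
      rw [h1]
      refine (norm_sum_le _ _).trans (Finset.sum_le_sum fun v hv => ?_)
      rw [mem_filter, mem_range] at hv
      exact hLF x v hv.2 hv.1 (range h) (fun n => mc (x + n)) (s x)
    rw [hsplit]
    refine (norm_add_le _ _).trans ?_
    rw [add_comm (ε / 2 * (h : ℝ))]
    exact add_le_add hgood hbad
  refine (Finset.sum_le_sum fun x _ => hpt x).trans ?_
  rw [Finset.sum_add_distrib, Finset.sum_const, card_range, nsmul_eq_mul]
  have hsw : ∑ x ∈ range X, ∑ v ∈ (range (q ^ K)).filter (fun v => v + k ≤ q ^ K),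
        ∑ t : Fin k × ι → ZMod M, ∑ b : ZMod (q ^ K), ((q ^ K : ℕ) : ℝ)⁻¹ *
            ‖∑ n ∈ range h, mc (x + n) * ee (phm q m d (L' x v t b) (F' x v t b) (n + s x))‖ ≤
      ε / 2 * h * X := by
    rw [Finset.sum_comm]
    have h2 : ∀ v ∈ (range (q ^ K)).filter (fun v => v + k ≤ q ^ K),
        ∑ x ∈ range X, ∑ t : Fin k × ι → ZMod M, ∑ b : ZMod (q ^ K), ((q ^ K : ℕ) : ℝ)⁻¹ *
            ‖∑ n ∈ range h, mc (x + n) * ee (phm q m d (L' x v t b) (F' x v t b) (n + s x))‖ ≤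
        T * (ε / (2 * (q ^ K : ℕ) * T) * h * X) := by
      intro v _
      rw [Finset.sum_comm]
      have h3 : ∀ t ∈ (univ : Finset (Fin k × ι → ZMod M)), ∑ x ∈ range X, ∑ b : ZMod (q ^ K), ((q ^ K : ℕ) : ℝ)⁻¹ *
            ‖∑ n ∈ range h, mc (x + n) * ee (phm q m d (L' x v t b) (F' x v t b) (n + s x))‖ ≤
          ε / (2 * (q ^ K : ℕ) * T) * h * X := by
        intro t _
        rw [Finset.sum_comm]
        have h4 : ∀ b ∈ (univ : Finset (ZMod (q ^ K))), ∑ x ∈ range X, ((q ^ K : ℕ) : ℝ)⁻¹ *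
            ‖∑ n ∈ range h, mc (x + n) * ee (phm q m d (L' x v t b) (F' x v t b) (n + s x))‖ ≤
            ((q ^ K : ℕ) : ℝ)⁻¹ * (ε / (2 * (q ^ K : ℕ) * T) * h * X) := by
          intro b _
          rw [← Finset.mul_sum]
          exact mul_le_mul_of_nonneg_left (hX0 X hX (fun x => L' x v t b) s (fun x => F' x v t b)) (by positivity)
        refine (Finset.sum_le_sum h4).trans (le_of_eq ?_)
        rw [Finset.sum_const, card_univ, ZMod.card, nsmul_eq_mul]
        have : ((q ^ K : ℕ) : ℝ) ≠ 0 := by exact_mod_cast NeZero.ne (q ^ K)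
        field_simp
      refine (Finset.sum_le_sum h3).trans (le_of_eq ?_)
      rw [Finset.sum_const, card_univ, nsmul_eq_mul, ← hT]
    refine (Finset.sum_le_sum h2).trans ?_
    refine (Finset.sum_le_sum_of_subset_of_nonneg (filter_subset _ _) (fun _ _ _ => by positivity)).trans (le_of_eq ?_)
    rw [Finset.sum_const, card_range, nsmul_eq_mul]
    have hQ' : ((q ^ K : ℕ) : ℝ) ≠ 0 := by exact_mod_cast hQpos.ne'
    have hT' : (T : ℝ) ≠ 0 := by exact_mod_cast hTpos.ne'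
    field_simp
  linarith

theorem words_local (q m d k : ℕ) (hq : 2 ≤ q) (hd : 1 ≤ d) (hmain : LMain q (q * m) d)
    (A : Type) [AddCommGroup A] [Finite A] {ε : ℝ} (hε : 0 < ε) :
    ∃ h0 : ℕ, ∀ h ≥ h0, ∃ X0 : ℕ, ∀ X ≥ X0, ∀ (L s : ℕ → ℕ) (F : ℕ → (Fin d → ℕ) → (Fin d → ℕ) → A)
      (w : ℕ → (Fin k → A) → ℂ), (∀ x y, ‖w x y‖ ≤ 1) →
      ∑ x ∈ range X, ‖∑ n ∈ range h, mc (x + n) * w x (fun j => phm q m d (L x) (F x) (n + s x + j))‖ ≤
        ε * h * X := by
  have : NeZero (Nat.card A) := ⟨Nat.card_pos.ne'⟩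
  obtain ⟨ι, _, φ, hφ⟩ := embed_exists A (Nat.card A) (fun a => card_nsmul_eq_zero')
  obtain ⟨h0, hh0⟩ := vec_local q (q * m) d (Nat.card A) k hq (Dvd.intro _ rfl) hd hmain ι hε
  refine ⟨h0, fun h hh => ?_⟩
  obtain ⟨X0, hX0⟩ := hh0 h hh
  refine ⟨X0, fun X hX L s F w hw => ?_⟩
  have h := hX0 X hX L s (fun x j y => φ (F x j (fun a => y a % m)))
    (fun x y => w x (fun j => Function.invFun φ (y j))) (fun x y => hw _ _)
  have h1 : ∀ x n, phm q (q * m) d (L x) (fun j y => φ (F x j (fun a => y a % m))) n =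
      φ (phm q m d (L x) (F x) n) := by
    intro x n
    unfold phm
    rw [map_sum]
    refine Finset.sum_congr rfl fun j _ => ?_
    have h2 : (fun a => n / q ^ (j a) % (q * m) % m) = fun a => n / q ^ (j a) % m :=
      funext fun a => Nat.mod_mod_of_dvd _ (Dvd.intro_left _ rfl)
    show φ (F x j fun a => n / q ^ (j a) % (q * m) % m) = _
    rw [h2]
  simp only [h1, Function.leftInverse_invFun hφ _] at h
  exact h

end Pool.Agent.Lib.MP_3e612f_nt.LOM
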