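import Pool.Agent.Lib.MP_3e612f_nt.LO.M.Models

/-!
Factors give joinings.
-/

set_option autoImplicit false

namespace Pool.Agent.Lib.MP_3e612f_nt.LOM

open Finset MeasureTheory Filter Topology
open Pool.Agent.Lib.MP_3e612f_nt.PI (mc)

/-- the graph joining of a factor -/
theorem fac_joint {Y : Type} [MetricSpace Y] [CompactSpace Y] [MeasurableSpace Y] [BorelSpace Y]
    (S : Y → Y) (hS : Continuous S) (g : Y → ℂ) (hg : Continuous g)
    {E : Type} [TopologicalSpace E] [NormalSpace E] [MeasurableSpace E] [BorelSpace E] (T : E → E) (X : Set E)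
    (κ : Measure E) [IsProbabilityMeasure κ] [κ.WeaklyRegular] (hinv : MeasurePreserving T κ κ)
    (hXm : MeasurableSet X) (hX : ∀ᵐ x ∂κ, x ∈ X)
    (p : E → Y) (hp : Measurable p) (heq : ∀ᵐ x ∂κ, p (T x) = S (p x)) (ε : ℝ) (hε : 0 < ε) :
    ∃ lam : Measure (E × Y), IsProbabilityMeasure lam ∧
          MeasurePreserving (Prod.map T S) lam lam ∧ lam.map Prod.snd = κ.map p ∧ (∀ᵐ p ∂lam, p.1 ∈ X) ∧
          ∃ f : E → ℂ, Continuous f ∧ (∃ C : ℝ, ∀ x, ‖f x‖ ≤ C) ∧ ∫ p, ‖g p.2 - f p.1‖ ∂lam ≤ ε := by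
  have hgr : Measurable (fun x : E => (x, p x)) := measurable_id.prodMk hp
  obtain ⟨G, hG⟩ : ∃ G : ℝ, ∀ y, ‖g y‖ ≤ G := by
    obtain ⟨G, hG⟩ := (isCompact_univ (X := Y)).exists_bound_of_continuousOn hg.continuousOn
    exact ⟨G, fun y => hG y (Set.mem_univ y)⟩
  have hgi : Integrable (fun x => g (p x)) κ :=
    Integrable.of_bound (hg.measurable.comp hp).aestronglyMeasurable G (Eventually.of_forall fun x => hG _)
  obtain ⟨f, hf, hfi⟩ := hgi.exists_boundedContinuous_integral_sub_le hε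
  refine ⟨κ.map (fun x => (x, p x)), Measure.isProbabilityMeasure_map hgr.aemeasurable, ?_, ?_, ?_, f, f.continuous,
    ⟨‖f‖, f.norm_coe_le_norm⟩, ?_⟩
  · have hm : Measurable (Prod.map T S) := hinv.measurable.prodMap hS.measurable
    refine ⟨hm, ?_⟩
    rw [Measure.map_map hm hgr]
    have e1 : (Prod.map T S ∘ fun x => (x, p x)) =ᵐ[κ] (fun x => (x, p x)) ∘ T := by
      filter_upwards [heq] with x hx
      simp [hx]
    rw [Measure.map_congr e1, ← Measure.map_map hgr hinv.measurable, hinv.map_eq]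
  · rw [Measure.map_map measurable_snd hgr]
    rfl
  · rw [ae_map_iff hgr.aemeasurable (measurable_fst hXm)]
    exact hX
  · rw [integral_map hgr.aemeasurable]
    · exact hf
    · exact ((hg.measurable.comp measurable_snd).sub (f.continuous.measurable.comp measurable_fst)).norm.aestronglyMeasurable

end Pool.Agent.Lib.MP_3e612f_nt.LOM
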