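import Pool.Agent.Lib.MP_3e612f_nt.LO.M.Local
import Pool.Agent.Lib.MP_3e612f_nt.LO.M.Factor

/-!
The statement of the hand-in, from the local theorem for one character.
-/

set_option autoImplicit false

namespace Pool.Agent.Lib.MP_3e612f_nt.LOM

open Finset MeasureTheory Filter Topology
open Pool.Agent.Lib.MP_3e612f_nt.PI (ee mc)
open Pool.Agent.Lib.MP_3e612f_nt.EM

/-- The sequences each of whose initial blocks occurs in a sequence
`n ↦ ∑_j F_j (⌊n / q^{j_1}⌋ mod m, …, ⌊n / q^{j_d}⌋ mod m)`. -/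
def DigX (q m d : ℕ) (A : Type) [AddCommGroup A] : Set (ℕ → A) :=
  {x | ∀ l : ℕ, ∃ (L s : ℕ) (F : (Fin d → Fin L) → (Fin d → ℕ) → A),
    ∀ i < l, x i = ∑ j : Fin d → Fin L, F j (fun a => (i + s) / q ^ (j a : ℕ) % m)}

theorem digX_eq (q m d : ℕ) (A : Type) [AddCommGroup A] : DigX q m d A = UXM q m d A := (UXM_eq q m d A).symm

/-- `y₀` is quasi-generic for `ν` -/
def QGen {Y : Type} [TopologicalSpace Y] [MeasurableSpace Y] (S : Y → Y) (y₀ : Y) (ν : Measure Y) : Prop :=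
  ∃ N : ℕ → ℕ, Tendsto N atTop atTop ∧ ∀ φ : C(Y, ℝ),
    Tendsto (fun k => (∑ n ∈ range (N k), φ (S^[n] y₀)) / (N k : ℝ)) atTop (𝓝 (∫ y, φ y ∂ν))

/-- For every `ε` there is a joining of `ν` with an invariant measure of some digit system such that `g` is `ε`-close in `L¹` to
a continuous function on the digit system. -/
def Digital {Y : Type} [MeasurableSpace Y] (S : Y → Y) (ν : Measure Y) (g : Y → ℂ) : Prop :=
  ∀ ε : ℝ, 0 < ε → ∃ (q m d : ℕ) (A : Type) (_ : AddCommGroup A) (_ : Finite A) (_ : TopologicalSpace A)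
    (_ : DiscreteTopology A) (_ : MeasurableSpace A) (_ : BorelSpace A) (lam : Measure ((ℕ → A) × Y)) (f : (ℕ → A) → ℂ),
    2 ≤ q ∧ 1 ≤ m ∧ 1 ≤ d ∧ IsProbabilityMeasure lam ∧ MeasurePreserving (Prod.map sh S) lam lam ∧
      lam.map Prod.snd = ν ∧ (∀ᵐ p ∂lam, p.1 ∈ DigX q m d A) ∧ Continuous f ∧ ∫ p, ‖g p.2 - f p.1‖ ∂lam ≤ ε

/-- `ν` is a factor of an invariant measure of some digit system. -/
def DigitFactor {Y : Type} [MeasurableSpace Y] (S : Y → Y) (ν : Measure Y) : Prop :=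
  ∃ (q m d : ℕ) (A : Type) (_ : AddCommGroup A) (_ : Finite A) (_ : TopologicalSpace A)
    (_ : DiscreteTopology A) (_ : MeasurableSpace A) (_ : BorelSpace A) (κ : Measure (ℕ → A)) (p : (ℕ → A) → Y),
    2 ≤ q ∧ 1 ≤ m ∧ 1 ≤ d ∧ IsProbabilityMeasure κ ∧ MeasurePreserving sh κ κ ∧ (∀ᵐ x ∂κ, x ∈ DigX q m d A) ∧
      Measurable p ∧ κ.map p = ν ∧ ∀ᵐ x ∂κ, p (sh x) = S (p x)

theorem sh_cont {A : Type} [TopologicalSpace A] : Continuous (sh : (ℕ → A) → ℕ → A) :=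
  continuous_pi fun i => continuous_apply (i + 1)

/-- Tietze: `LUS` for functions continuous on `X`. -/
theorem lus_on {A : Type} [AddCommGroup A] [Finite A] [TopologicalSpace A] [DiscreteTopology A] (q m d : ℕ)
    (h : LUS (sh : (ℕ → A) → ℕ → A) (UXM q m d A)) (f : (ℕ → A) → ℂ) (hf : ContinuousOn f (UXM q m d A)) (ε : ℝ)
    (hε : 0 < ε) : ∃ h₀ : ℕ, ∀ h ≥ h₀, ∃ N₀ : ℕ, ∀ N ≥ N₀, ∀ y : ℕ → ℕ → A, (∀ k, y k ∈ UXM q m d A) →
      ∑ k ∈ range N, ‖∑ n ∈ range h, mc (k + n) * f (sh^[n] (y k))‖ ≤ ε * h * N := by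
  obtain ⟨F, hF⟩ := ContinuousMap.exists_restrict_eq (UXM_closed (A := A) q m d)
    (⟨Set.domRestrict (UXM q m d A) f, hf.domRestrict⟩ : C(UXM q m d A, ℂ))
  have hFf : ∀ x ∈ UXM q m d A, F x = f x := by
    intro x hx
    have := congrArg (fun (G : C(UXM q m d A, ℂ)) => G ⟨x, hx⟩) hF
    exact this
  obtain ⟨h₀, H⟩ := h F F.continuous ε hε
  refine ⟨h₀, fun h' hh => ?_⟩
  obtain ⟨N₀, H⟩ := H h' hh
  refine ⟨N₀, fun N hN y hy => ?_⟩
  refine le_trans (le_of_eq (Finset.sum_congr rfl fun k _ => ?_)) (H N hN y hy)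
  congr 1
  refine Finset.sum_congr rfl fun n _ => ?_
  rw [hFf]
  rw [sh_iter]
  exact UXM_shift (hy k) n

theorem digital_models (hmain : ∀ q m d : ℕ, 2 ≤ q → 1 ≤ m → 1 ≤ d → LMain q (q * m) d)
    {Y : Type} [MetricSpace Y] [CompactSpace Y] [MeasurableSpace Y] [BorelSpace Y]
    (S : Y → Y) (hS : Continuous S) (g : Y → ℂ) (hg : Continuous g) (y₀ : Y)
    (H : ∀ ν : Measure Y, IsProbabilityMeasure ν → QGen S y₀ ν → Digital S ν g) :
    Tendsto (fun N : ℕ => (∑ n ∈ range N, mc n * g (S^[n] y₀)) / (N : ℂ)) atTop (𝓝 0) := by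
  refine models S hS g hg y₀ fun ν hν hq ε hε => ?_
  obtain ⟨q, m, d, A, _, _, _, _, _, _, lam, f, h1, h2, h3, h4, h5, h6, h7, h8, h9⟩ := H ν hν hq ε hε
  refine ⟨ℕ → A, inferInstance, inferInstance, inferInstance, sh, UXM q m d A,
    ux_lus q m d h1 h3 (hmain q m d h1 h2 h3) A, lam, h4, h5, h6, ?_, f, h8, ?_, h9⟩
  · rw [← digX_eq]; exact h7
  · obtain ⟨C, hC⟩ := (isCompact_univ (X := ℕ → A)).exists_bound_of_continuousOn h8.continuousOn
    exact ⟨C, fun x => hC x (Set.mem_univ _)⟩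

theorem digital_of_factor {Y : Type} [MetricSpace Y] [CompactSpace Y] [MeasurableSpace Y] [BorelSpace Y]
    (S : Y → Y) (hS : Continuous S) (g : Y → ℂ) (hg : Continuous g) (ν : Measure Y) (h : DigitFactor S ν) :
    Digital S ν g := by
  intro ε hε
  obtain ⟨q, m, d, A, _, _, _, _, _, _, κ, p, h1, h2, h3, h4, h5, h6, h7, h8, h9⟩ := h
  have hcl : IsClosed (DigX q m d A) := by rw [digX_eq]; exact UXM_closed q m d
  obtain ⟨lam, g1, g2, g3, g4, f, g5, -, g6⟩ := fac_joint S hS g hg (sh : (ℕ → A) → ℕ → A) (DigX q m d A) κ h5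
    hcl.measurableSet h6 p h7 h9 ε hε
  exact ⟨q, m, d, A, inferInstance, inferInstance, inferInstance, inferInstance, inferInstance, inferInstance, lam, f,
    h1, h2, h3, g1, g2, g3.trans h8, g4, g5, g6⟩

theorem range_to_Icc (a : ℕ → ℂ) (G : ℝ) (hG : ∀ n, ‖a n‖ ≤ G)
    (h : Tendsto (fun N : ℕ => (∑ n ∈ range N, a n) / (N : ℂ)) atTop (𝓝 0)) :
    Tendsto (fun N : ℕ => (∑ n ∈ Icc 1 N, a n) / (N : ℂ)) atTop (𝓝 0) := by
  have e : ∀ N : ℕ, (∑ n ∈ Icc 1 N, a n) / (N : ℂ) = (∑ n ∈ range N, a n) / (N : ℂ) + (a N - a 0) / (N : ℂ) := by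
    intro N
    rw [← add_div]
    congr 1
    have h1 : ∑ n ∈ range (N + 1), a n = a 0 + ∑ n ∈ Icc 1 N, a n := by
      rw [Finset.range_eq_Ico, Finset.sum_eq_sum_Ico_succ_bot (Nat.succ_pos N), zero_add,
        ← Finset.Ico_add_one_right_eq_Icc]
      rfl
    rw [Finset.sum_range_succ] at h1
    linear_combination -h1
  have h2 : Tendsto (fun N : ℕ => (a N - a 0) / (N : ℂ)) atTop (𝓝 0) := by
    rw [tendsto_zero_iff_norm_tendsto_zero]
    have h3 : Tendsto (fun N : ℕ => (2 * G) / (N : ℝ)) atTop (𝓝 0) := tendsto_const_div_atTop_nhds_zero_nat _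
    refine squeeze_zero (fun _ => norm_nonneg _) (fun N => ?_) h3
    rw [norm_div, Complex.norm_natCast]
    gcongr
    exact (norm_sub_le _ _).trans (by linarith [hG N, hG 0])
  have h4 := h.add h2
  rw [add_zero] at h4
  exact h4.congr fun N => (e N).symm

/-- the statement of the hand-in, with the local theorem for one character as a hypothesis -/
theorem final_of (hmain : ∀ q m d : ℕ, 2 ≤ q → 1 ≤ m → 1 ≤ d → LMain q (q * m) d) :
    (∀ q m d : ℕ, 2 ≤ q → 1 ≤ m → 1 ≤ d → ∀ (A : Type) [AddCommGroup A] [Finite A] [TopologicalSpace A]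
      [DiscreteTopology A] (f : (ℕ → A) → ℂ), ContinuousOn f (DigX q m d A) → ∀ ε : ℝ, 0 < ε →
      ∃ h₀ : ℕ, ∀ h ≥ h₀, ∃ N₀ : ℕ, ∀ N ≥ N₀, ∀ y : ℕ → ℕ → A, (∀ k, y k ∈ DigX q m d A) →
        ∑ k ∈ range N, ‖∑ n ∈ range h, f (sh^[n] (y k)) * ((ArithmeticFunction.moebius (k + n) : ℤ) : ℂ)‖ ≤
          ε * h * N) ∧
    (∀ (Y : Type) [MetricSpace Y] [CompactSpace Y] [MeasurableSpace Y] [BorelSpace Y] (S : Y → Y), Continuous S →
      ∀ g : Y → ℂ, Continuous g → ∀ y₀ : Y,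
        (∀ ν : Measure Y, IsProbabilityMeasure ν → QGen S y₀ ν → Digital S ν g) →
        Tendsto (fun N : ℕ => (∑ n ∈ Icc 1 N, g (S^[n] y₀) * ((ArithmeticFunction.moebius n : ℤ) : ℂ)) / (N : ℂ))
          atTop (𝓝 0)) ∧
    (∀ (Y : Type) [MetricSpace Y] [CompactSpace Y] [MeasurableSpace Y] [BorelSpace Y] (S : Y → Y), Continuous S →
      ∀ y₀ : Y, (∀ ν : Measure Y, IsProbabilityMeasure ν → QGen S y₀ ν → DigitFactor S ν) →
        ∀ g : Y → ℂ, Continuous g →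
        Tendsto (fun N : ℕ => (∑ n ∈ Icc 1 N, g (S^[n] y₀) * ((ArithmeticFunction.moebius n : ℤ) : ℂ)) / (N : ℂ))
          atTop (𝓝 0)) := by
  have hB : ∀ (Y : Type) [MetricSpace Y] [CompactSpace Y] [MeasurableSpace Y] [BorelSpace Y] (S : Y → Y), Continuous S →
      ∀ g : Y → ℂ, Continuous g → ∀ y₀ : Y,
        (∀ ν : Measure Y, IsProbabilityMeasure ν → QGen S y₀ ν → Digital S ν g) →
        Tendsto (fun N : ℕ => (∑ n ∈ Icc 1 N, g (S^[n] y₀) * ((ArithmeticFunction.moebius n : ℤ) : ℂ)) / (N : ℂ))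
          atTop (𝓝 0) := by
    intro Y _ _ _ _ S hS g hg y₀ H
    have h1 := digital_models hmain S hS g hg y₀ H
    obtain ⟨G, hG⟩ : ∃ G : ℝ, ∀ y, ‖g y‖ ≤ G := by
      obtain ⟨G, hG⟩ := (isCompact_univ (X := Y)).exists_bound_of_continuousOn hg.continuousOn
      exact ⟨G, fun y => hG y (Set.mem_univ y)⟩
    have h2 := range_to_Icc (fun n => mc n * g (S^[n] y₀)) G (fun n => by
      rw [norm_mul]
      exact (mul_le_of_le_one_left (norm_nonneg _) (mc_norm_le _)).trans (hG _)) h1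
    refine h2.congr fun N => ?_
    congr 1
    refine Finset.sum_congr rfl fun n _ => ?_
    rw [mul_comm]
    rfl
  refine ⟨?_, hB, ?_⟩
  · intro q m d hq hm hd A _ _ _ _ f hf ε hε
    rw [digX_eq] at hf
    obtain ⟨h₀, H⟩ := lus_on q m d (ux_lus q m d hq hd (hmain q m d hq hm hd) A) f hf ε hε
    refine ⟨h₀, fun h hh => ?_⟩
    obtain ⟨N₀, H⟩ := H h hh
    refine ⟨N₀, fun N hN y hy => ?_⟩
    rw [digX_eq] at hy
    refine le_trans (le_of_eq (Finset.sum_congr rfl fun k _ => ?_)) (H N hN y hy)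
    congr 1
    refine Finset.sum_congr rfl fun n _ => ?_
    rw [mul_comm]
    rfl
  · intro Y _ _ _ _ S hS y₀ H g hg
    exact hB Y S hS g hg y₀ fun ν hν hq => digital_of_factor S hS g hg ν (H ν hν hq)

end Pool.Agent.Lib.MP_3e612f_nt.LOM
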