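import Pool.Agent.Lib.MP_3e612f_nt.LO.M.Models
import Pool.Agent.Lib.MP_3e612f_nt.LO.D.Momo

/-!
The strong MOMO property of a locally uniform system.
-/

set_option autoImplicit false

namespace Pool.Agent.Lib.MP_3e612f_nt.LOM

open Finset Filter Topology
open Pool.Agent.Lib.MP_3e612f_nt.PI (mc)

/-- Local uniformity implies the strong MOMO property: for blocks `[b k, b (k + 1))` whose lengths tend to
infinity and one arbitrary point `x k` of `X` for every block, the sum of the absolute values of the sums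
over the blocks is `o (b K)`. -/
theorem momo {E : Type} [TopologicalSpace E] (T : E → E) (X : Set E) (hT : Set.MapsTo T X X)
    (h : LUS T X) (f : E → ℂ) (hf : Continuous f) {C : ℝ} (hC : ∀ x ∈ X, ‖f x‖ ≤ C)
    (b : ℕ → ℕ) (hb : StrictMono b) (hgap : Tendsto (fun k => b (k + 1) - b k) atTop atTop)
    (x : ℕ → E) (hx : ∀ k, x k ∈ X) :
    Tendsto (fun K : ℕ => (1 / (b K : ℝ)) * ∑ k ∈ range K,
      ‖∑ n ∈ Ico (b k) (b (k + 1)), f (T^[n - b k] (x k)) * mc n‖) atTop (𝓝 0) :=
  LOD.momo_of_local X T hT f hC (h f hf) b hb hgap x hx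

end Pool.Agent.Lib.MP_3e612f_nt.LOM
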