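import Pool.Agent.Lib.MP_3e612f_nt.LO.M.Unif
import Pool.Agent.Lib.MP_3e612f_nt.LO.M.Final
import Pool.Agent.Lib.MP_3e612f_nt.LO.M.Momo

/-!
Corollaries of the uniform form: limit measures are invariant; the limit measures along one orbit are the
measures for which the point is quasi-generic; systems all of whose invariant measures are digital are
locally uniform, and have the strong MOMO property.
-/

set_option autoImplicit false

namespace Pool.Agent.Lib.MP_3e612f_nt.LOM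

open Finset MeasureTheory Filter Topology
open Pool.Agent.Lib.MP_3e612f_nt.PI (mc)
open Pool.Agent.Lib.MP_3e612f_nt.EM

section
variable {Y : Type} [MetricSpace Y] [CompactSpace Y] [MeasurableSpace Y] [BorelSpace Y]

omit [MeasurableSpace Y] [BorelSpace Y] in
theorem cor_bdd (φ : C(Y, ℝ)) : ∃ G : ℝ, 0 ≤ G ∧ ∀ y, |φ y| ≤ G :=
  ⟨‖φ‖, norm_nonneg _, fun y => φ.norm_coe_le_norm y⟩

/-- telescoping -/
theorem cor_tele (a : ℕ → ℝ) (h : ℕ) :
    ∑ n ∈ range h, a (n + 1) - ∑ n ∈ range h, a n = a h - a 0 := by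
  rw [← Finset.sum_sub_distrib, Finset.sum_range_sub]

/-- limit measures are invariant -/
theorem dlim_inv (S : Y → Y) (hS : Continuous S) (F : Set (ℕ → Y)) (ν : Measure Y)
    [IsProbabilityMeasure ν] (h : DLim S F ν) : MeasurePreserving S ν ν := by
  obtain ⟨N, h, y, -, hh, hN, hφ⟩ := h
  refine ⟨hS.measurable, ?_⟩
  have : IsProbabilityMeasure (ν.map S) := Measure.isProbabilityMeasure_map hS.measurable.aemeasurable
  refine ext_of_forall_integral_eq_of_IsFiniteMeasure fun φ => ?_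
  rw [integral_map hS.measurable.aemeasurable φ.continuous.measurable.aestronglyMeasurable]
  obtain ⟨G, hG0, hG⟩ := cor_bdd φ.toContinuousMap
  have h1 := hφ φ.toContinuousMap
  have h2 := hφ (φ.toContinuousMap.comp ⟨S, hS⟩)
  have h3 := h2.sub h1
  have h4 : Tendsto (fun k =>
      (∑ x ∈ range (N k), ∑ n ∈ range (h k), (φ.toContinuousMap.comp ⟨S, hS⟩) (S^[n] (y k x))) /
        ((N k : ℝ) * (h k : ℝ)) -
      (∑ x ∈ range (N k), ∑ n ∈ range (h k), φ.toContinuousMap (S^[n] (y k x))) /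
        ((N k : ℝ) * (h k : ℝ))) atTop (𝓝 0) := by
    have h5 : Tendsto (fun k => (2 * G) / (h k : ℝ)) atTop (𝓝 0) :=
      (tendsto_const_div_atTop_nhds_zero_nat (2 * G)).comp hh
    refine squeeze_zero_norm' ?_ h5
    filter_upwards [hh.eventually_ge_atTop 1, hN.eventually_gt_atTop 0] with k hk1 hk2
    have hk0 : (0 : ℝ) < h k := by exact_mod_cast hk1
    have hN0 : (0 : ℝ) < N k := by
      rcases div_pos_iff.1 hk2 with h6 | h6
      · exact h6.1
      · exact absurd h6.2 (not_lt.2 hk0.le)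
    rw [← sub_div, ← Finset.sum_sub_distrib, norm_div, Real.norm_eq_abs, Real.norm_eq_abs,
      abs_of_pos (mul_pos hN0 hk0), div_le_div_iff₀ (mul_pos hN0 hk0) hk0]
    have h7 : |∑ x ∈ range (N k), (∑ n ∈ range (h k),
        (φ.toContinuousMap.comp ⟨S, hS⟩) (S^[n] (y k x)) -
        ∑ n ∈ range (h k), φ.toContinuousMap (S^[n] (y k x)))| ≤ N k * (2 * G) := by
      refine (Finset.abs_sum_le_sum_abs _ _).trans ?_
      calc _ ≤ ∑ x ∈ range (N k), 2 * G := by
            refine Finset.sum_le_sum fun x _ => ?_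
            have e : ∀ n, (φ.toContinuousMap.comp ⟨S, hS⟩) (S^[n] (y k x)) =
                φ.toContinuousMap (S^[n + 1] (y k x)) := by
              intro n
              rw [Function.iterate_succ_apply']
              rfl
            rw [Finset.sum_congr rfl fun n _ => e n,
              cor_tele (fun n => φ.toContinuousMap (S^[n] (y k x)))]
            refine (abs_sub _ _).trans ?_
            have := hG (S^[h k] (y k x))
            have := hG (S^[0] (y k x))
            linarith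
        _ = N k * (2 * G) := by rw [Finset.sum_const, card_range, nsmul_eq_mul]
    calc _ ≤ N k * (2 * G) * h k := mul_le_mul_of_nonneg_right h7 hk0.le
      _ = 2 * G * (N k * h k) := by ring
  have h6 := tendsto_nhds_unique h3 h4
  have h7 : ∫ z, (φ.toContinuousMap.comp ⟨S, hS⟩) z ∂ν = ∫ z, φ.toContinuousMap z ∂ν := by linarith
  exact h7

/-- averages of averages along an orbit -/
theorem cor_orbit (a : ℕ → ℝ) {G : ℝ} (hG0 : 0 ≤ G) (hG : ∀ n, |a n| ≤ G) (N h : ℕ) :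
    |∑ x ∈ range N, ∑ n ∈ range h, a (n + x) - h * ∑ x ∈ range N, a x| ≤ 2 * G * h * h := by
  have h1 : ∀ n, |∑ x ∈ range N, a (n + x) - ∑ x ∈ range N, a x| ≤ 2 * G * n := by
    intro n
    have e1 : ∑ x ∈ range (n + N), a x = ∑ x ∈ range n, a x + ∑ x ∈ range N, a (n + x) :=
      Finset.sum_range_add a n N
    have e2 : ∑ x ∈ range (N + n), a x = ∑ x ∈ range N, a x + ∑ x ∈ range n, a (N + x) :=
      Finset.sum_range_add a N n
    have e3 : ∑ x ∈ range N, a (n + x) - ∑ x ∈ range N, a x =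
        ∑ x ∈ range n, a (N + x) - ∑ x ∈ range n, a x := by
      rw [Nat.add_comm N n] at e2
      linarith
    have h2 : ∀ b : ℕ → ℝ, (∀ x, |b x| ≤ G) → |∑ x ∈ range n, b x| ≤ n * G := by
      intro b hb
      refine (Finset.abs_sum_le_sum_abs _ _).trans ((Finset.sum_le_sum fun x _ => hb x).trans ?_)
      rw [Finset.sum_const, card_range, nsmul_eq_mul]
    rw [e3]
    refine (abs_sub _ _).trans ?_
    have := h2 (fun x => a (N + x)) fun x => hG _
    have := h2 a hG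
    linarith
  have e : ∑ x ∈ range N, ∑ n ∈ range h, a (n + x) - h * ∑ x ∈ range N, a x =
      ∑ n ∈ range h, (∑ x ∈ range N, a (n + x) - ∑ x ∈ range N, a x) := by
    rw [Finset.sum_sub_distrib, Finset.sum_comm, Finset.sum_const, card_range, nsmul_eq_mul]
  rw [e]
  refine (Finset.abs_sum_le_sum_abs _ _).trans ?_
  calc _ ≤ ∑ n ∈ range h, 2 * G * h := by
        refine Finset.sum_le_sum fun n hn => (h1 n).trans ?_
        have : (n : ℝ) ≤ h := by exact_mod_cast (mem_range.1 hn).le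
        gcongr
    _ = 2 * G * h * h := by
        rw [Finset.sum_const, card_range, nsmul_eq_mul]
        ring

/-- along one orbit the limit measures are those for which the point is quasi-generic -/
theorem dlim_qgen (S : Y → Y) (y₀ : Y) (ν : Measure Y)
    (h : DLim S {y | ∀ x, y x = S^[x] y₀} ν) : QGen S y₀ ν := by
  obtain ⟨N, h, y, hy, hh, hN, hφ⟩ := h
  have hev : ∀ᶠ k in atTop, (0 : ℝ) < h k ∧ (h k : ℝ) ≤ N k := by
    filter_upwards [hh.eventually_ge_atTop 1, hN.eventually_ge_atTop 1] with k hk1 hk2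
    have hk0 : (0 : ℝ) < h k := by exact_mod_cast hk1
    rw [le_div_iff₀ hk0, one_mul] at hk2
    exact ⟨hk0, hk2⟩
  have hNt : Tendsto N atTop atTop := by
    refine tendsto_atTop_mono' atTop ?_ hh
    filter_upwards [hev] with k hk
    exact_mod_cast hk.2
  refine ⟨N, hNt, fun φ => ?_⟩
  obtain ⟨G, hG0, hG⟩ := cor_bdd φ
  have h1 := hφ φ
  have h2 : Tendsto (fun k => (2 * G) * ((h k : ℝ) / (N k : ℝ))) atTop (𝓝 0) := by
    have h3 := hN.inv_tendsto_atTop.const_mul (2 * G)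
    rw [mul_zero] at h3
    refine h3.congr fun k => ?_
    rw [Pi.inv_apply, inv_div]
  have h3 : Tendsto (fun k =>
      (∑ x ∈ range (N k), ∑ n ∈ range (h k), φ (S^[n] (y k x))) / ((N k : ℝ) * (h k : ℝ)) -
      (∑ n ∈ range (N k), φ (S^[n] y₀)) / (N k : ℝ)) atTop (𝓝 0) := by
    refine squeeze_zero_norm' ?_ h2
    filter_upwards [hev] with k hk
    have hk0 := hk.1
    have hN0 : (0 : ℝ) < N k := lt_of_lt_of_le hk.1 hk.2
    have e1 : ∑ x ∈ range (N k), ∑ n ∈ range (h k), φ (S^[n] (y k x)) =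
        ∑ x ∈ range (N k), ∑ n ∈ range (h k), φ (S^[n + x] y₀) := by
      refine Finset.sum_congr rfl fun x _ => Finset.sum_congr rfl fun n _ => ?_
      rw [hy k x, ← Function.iterate_add_apply]
    have e2 : (∑ x ∈ range (N k), ∑ n ∈ range (h k), φ (S^[n] (y k x))) /
        ((N k : ℝ) * (h k : ℝ)) - (∑ n ∈ range (N k), φ (S^[n] y₀)) / (N k : ℝ) =
        (∑ x ∈ range (N k), ∑ n ∈ range (h k), φ (S^[n + x] y₀) -
          h k * ∑ n ∈ range (N k), φ (S^[n] y₀)) / ((N k : ℝ) * (h k : ℝ)) := by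
      rw [e1]
      field_simp
    rw [e2, norm_div, Real.norm_eq_abs, Real.norm_eq_abs, abs_of_pos (mul_pos hN0 hk0),
      div_le_iff₀ (mul_pos hN0 hk0)]
    refine (cor_orbit (fun n => φ (S^[n] y₀)) hG0 (fun n => hG _) (N k) (h k)).trans
      (le_of_eq ?_)
    field_simp
  have h4 := h1.sub h3
  rw [sub_zero] at h4
  refine h4.congr fun k => ?_
  ring

/-- the hypothesis of `unif_models` from `Digital` -/
theorem digital_hyp (hmain : ∀ q m d : ℕ, 2 ≤ q → 1 ≤ m → 1 ≤ d → LMain q (q * m) d)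
    (S : Y → Y) (g : Y → ℂ) (ν : Measure Y) (H : Digital S ν g) (ε : ℝ) (hε : 0 < ε) :
    ∃ (E : Type) (_ : TopologicalSpace E) (_ : MeasurableSpace E) (_ : OpensMeasurableSpace E)
        (T : E → E) (X : Set E), LUS T X ∧ ∃ lam : Measure (E × Y), IsProbabilityMeasure lam ∧
          MeasurePreserving (Prod.map T S) lam lam ∧ lam.map Prod.snd = ν ∧ (∀ᵐ p ∂lam, p.1 ∈ X) ∧
          ∃ f : E → ℂ, Continuous f ∧ (∃ C : ℝ, ∀ x, ‖f x‖ ≤ C) ∧
            ∫ p, ‖g p.2 - f p.1‖ ∂lam ≤ ε := by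
  obtain ⟨q, m, d, A, _, _, _, _, _, _, lam, f, h1, h2, h3, h4, h5, h6, h7, h8, h9⟩ := H ε hε
  refine ⟨ℕ → A, inferInstance, inferInstance, inferInstance, sh, UXM q m d A,
    ux_lus q m d h1 h3 (hmain q m d h1 h2 h3) A, lam, h4, h5, h6, ?_, f, h8, ?_, h9⟩
  · rw [← digX_eq]; exact h7
  · obtain ⟨C, hC⟩ := (isCompact_univ (X := ℕ → A)).exists_bound_of_continuousOn h8.continuousOn
    exact ⟨C, fun x => hC x (Set.mem_univ _)⟩

/-- the general form -/
theorem digital_unif (hmain : ∀ q m d : ℕ, 2 ≤ q → 1 ≤ m → 1 ≤ d → LMain q (q * m) d)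
    (S : Y → Y) (hS : Continuous S) (g : Y → ℂ) (hg : Continuous g) (F : Set (ℕ → Y))
    (H : ∀ ν : Measure Y, IsProbabilityMeasure ν → DLim S F ν → Digital S ν g) :
    ∀ ε : ℝ, 0 < ε → ∃ h₀ : ℕ, ∀ h ≥ h₀, ∃ N₀ : ℕ, ∀ N ≥ N₀, ∀ y ∈ F,
      ∑ x ∈ range N, ‖∑ n ∈ range h, mc (x + n) * g (S^[n] (y x))‖ ≤ ε * h * N :=
  unif_models S hS g hg F fun ν hν hD ε hε => digital_hyp hmain S g ν (H ν hν hD) ε hε

/-- every invariant measure digital: locally uniform, for arbitrary points on the intervals -/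
theorem digital_inv (hmain : ∀ q m d : ℕ, 2 ≤ q → 1 ≤ m → 1 ≤ d → LMain q (q * m) d)
    (S : Y → Y) (hS : Continuous S) (g : Y → ℂ) (hg : Continuous g)
    (H : ∀ ν : Measure Y, IsProbabilityMeasure ν → MeasurePreserving S ν ν → Digital S ν g) :
    ∀ ε : ℝ, 0 < ε → ∃ h₀ : ℕ, ∀ h ≥ h₀, ∃ N₀ : ℕ, ∀ N ≥ N₀, ∀ y : ℕ → Y,
      ∑ x ∈ range N, ‖∑ n ∈ range h, mc (x + n) * g (S^[n] (y x))‖ ≤ ε * h * N := by
  intro ε hε
  obtain ⟨h₀, H1⟩ := digital_unif hmain S hS g hg Set.univ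
    (fun ν hν hD => H ν hν (dlim_inv S hS Set.univ ν hD)) ε hε
  refine ⟨h₀, fun h hh => ?_⟩
  obtain ⟨N₀, H2⟩ := H1 h hh
  exact ⟨N₀, fun N hN y => H2 N hN y (Set.mem_univ y)⟩

/-- the local form along one orbit, only with the measures for which the point is quasi-generic -/
theorem digital_orbit (hmain : ∀ q m d : ℕ, 2 ≤ q → 1 ≤ m → 1 ≤ d → LMain q (q * m) d)
    (S : Y → Y) (hS : Continuous S) (g : Y → ℂ) (hg : Continuous g) (y₀ : Y)
    (H : ∀ ν : Measure Y, IsProbabilityMeasure ν → QGen S y₀ ν → Digital S ν g) :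
    ∀ ε : ℝ, 0 < ε → ∃ h₀ : ℕ, ∀ h ≥ h₀, ∃ N₀ : ℕ, ∀ N ≥ N₀,
      ∑ x ∈ range N, ‖∑ n ∈ range h, mc (x + n) * g (S^[x + n] y₀)‖ ≤ ε * h * N := by
  intro ε hε
  obtain ⟨h₀, H1⟩ := digital_unif hmain S hS g hg {y | ∀ x, y x = S^[x] y₀}
    (fun ν hν hD => H ν hν (dlim_qgen S y₀ ν hD)) ε hε
  refine ⟨h₀, fun h hh => ?_⟩
  obtain ⟨N₀, H2⟩ := H1 h hh
  refine ⟨N₀, fun N hN => ?_⟩
  refine le_trans (le_of_eq (Finset.sum_congr rfl fun x _ => ?_))
    (H2 N hN (fun x => S^[x] y₀) fun x => rfl)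
  congr 1
  refine Finset.sum_congr rfl fun n _ => ?_
  rw [← Function.iterate_add_apply, Nat.add_comm n x]

/-- strong MOMO property, if every invariant measure is digital -/
theorem digital_momo (hmain : ∀ q m d : ℕ, 2 ≤ q → 1 ≤ m → 1 ≤ d → LMain q (q * m) d)
    (S : Y → Y) (hS : Continuous S) (g : Y → ℂ) (hg : Continuous g)
    (H : ∀ ν : Measure Y, IsProbabilityMeasure ν → MeasurePreserving S ν ν → Digital S ν g)
    (b : ℕ → ℕ) (hb : StrictMono b) (hgap : Tendsto (fun k => b (k + 1) - b k) atTop atTop)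
    (x : ℕ → Y) :
    Tendsto (fun K : ℕ => (1 / (b K : ℝ)) * ∑ k ∈ range K,
      ‖∑ n ∈ Ico (b k) (b (k + 1)), g (S^[n - b k] (x k)) * mc n‖) atTop (𝓝 0) := by
  obtain ⟨G, hG⟩ : ∃ G : ℝ, ∀ y, ‖g y‖ ≤ G := by
    obtain ⟨G, hG⟩ := (isCompact_univ (X := Y)).exists_bound_of_continuousOn hg.continuousOn
    exact ⟨G, fun y => hG y (Set.mem_univ y)⟩
  refine LOD.momo_of_local Set.univ S (Set.mapsTo_univ _ _) g (fun y _ => hG y) ?_ b hb hgap x
    (fun k => Set.mem_univ _)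
  intro ε hε
  obtain ⟨h₀, H1⟩ := digital_inv hmain S hS g hg H ε hε
  refine ⟨h₀, fun h hh => ?_⟩
  obtain ⟨N₀, H2⟩ := H1 h hh
  exact ⟨N₀, fun N hN y _ => H2 N hN y⟩

end

/-- the strong MOMO property of the digit systems -/
theorem digX_momo (hmain : ∀ q m d : ℕ, 2 ≤ q → 1 ≤ m → 1 ≤ d → LMain q (q * m) d) (q m d : ℕ)
    (hq : 2 ≤ q) (hm : 1 ≤ m) (hd : 1 ≤ d) (A : Type) [AddCommGroup A] [Finite A]
    [TopologicalSpace A] [DiscreteTopology A] (f : (ℕ → A) → ℂ)
    (hf : ContinuousOn f (DigX q m d A)) (b : ℕ → ℕ) (hb : StrictMono b)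
    (hgap : Tendsto (fun k => b (k + 1) - b k) atTop atTop) (x : ℕ → ℕ → A)
    (hx : ∀ k, x k ∈ DigX q m d A) :
    Tendsto (fun K : ℕ => (1 / (b K : ℝ)) * ∑ k ∈ range K,
      ‖∑ n ∈ Ico (b k) (b (k + 1)), f (sh^[n - b k] (x k)) * mc n‖) atTop (𝓝 0) := by
  rw [digX_eq] at hf
  have hX : IsClosed (UXM q m d A) := UXM_closed q m d
  obtain ⟨C, hC⟩ := (isCompact_univ.of_isClosed_subset hX
    (Set.subset_univ _)).exists_bound_of_continuousOn hf
  refine LOD.momo_of_local (UXM q m d A) sh (fun z hz => UXM_shift hz 1) f hC ?_ b hb hgap x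
    (fun k => by rw [← digX_eq]; exact hx k)
  exact lus_on q m d (ux_lus q m d hq hd (hmain q m d hq hm hd) A) f hf

end Pool.Agent.Lib.MP_3e612f_nt.LOM
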