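import Mathlib
import Pool.Agent.Lib.MP_3e612f_nt.PI.Defs

/-!
From local uniformity of the Moebius function along a system to all topological models of its joinings.
-/

set_option autoImplicit false

namespace Pool.Agent.Lib.MP_3e612f_nt.LOM

open Finset MeasureTheory Filter Topology
open Pool.Agent.Lib.MP_3e612f_nt.PI (mc)

/-- local uniformity of the Moebius function for the continuous functions on the orbits of `X` -/
def LUS {E : Type} [TopologicalSpace E] (T : E → E) (X : Set E) : Prop :=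
  ∀ f : E → ℂ, Continuous f → ∀ ε : ℝ, 0 < ε → ∃ h₀ : ℕ, ∀ h ≥ h₀, ∃ N₀ : ℕ, ∀ N ≥ N₀, ∀ y : ℕ → E,
    (∀ x, y x ∈ X) → ∑ x ∈ range N, ‖∑ n ∈ range h, mc (x + n) * f (T^[n] (y x))‖ ≤ ε * h * N

theorem mc_le (n : ℕ) : ‖mc n‖ ≤ 1 := by
  unfold mc
  rw [Complex.norm_intCast]
  exact_mod_cast ArithmeticFunction.abs_moebius_le_one

/-- shifting a bounded sequence -/
theorem shift_le (c : ℕ → ℂ) (G : ℝ) (hc : ∀ n, ‖c n‖ ≤ G) (N h : ℕ) :
    h * ‖∑ n ∈ range N, c n‖ ≤ ∑ x ∈ range N, ‖∑ n ∈ range h, c (x + n)‖ + 2 * h * h * G := by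
  have hG : 0 ≤ G := (norm_nonneg _).trans (hc 0)
  have h1 : ∀ n, ‖∑ x ∈ range N, c (x + n) - ∑ x ∈ range N, c x‖ ≤ 2 * n * G := by
    intro n
    have e1 : ∑ x ∈ range N, c (x + n) = ∑ x ∈ range (N + n), c x - ∑ x ∈ range n, c x := by
      rw [add_comm N n, Finset.sum_range_add]
      simp [add_comm]
    have e2 : ∑ x ∈ range (N + n), c x = ∑ x ∈ range N, c x + ∑ x ∈ range n, c (N + x) := by
      rw [Finset.sum_range_add]
    rw [e1, e2]
    have e3 : (∑ x ∈ range N, c x + ∑ x ∈ range n, c (N + x)) - ∑ x ∈ range n, c x - ∑ x ∈ range N, c x =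
        ∑ x ∈ range n, (c (N + x) - c x) := by
      rw [Finset.sum_sub_distrib]; ring
    rw [e3]
    refine (norm_sum_le _ _).trans ((Finset.sum_le_sum fun x _ =>
      (norm_sub_le _ _).trans (add_le_add (hc _) (hc _))).trans (le_of_eq ?_))
    rw [Finset.sum_const, card_range, nsmul_eq_mul]; ring
  have e : (h : ℂ) * ∑ n ∈ range N, c n = ∑ x ∈ range N, ∑ n ∈ range h, c (x + n) -
      ∑ n ∈ range h, (∑ x ∈ range N, c (x + n) - ∑ x ∈ range N, c x) := by
    rw [Finset.sum_sub_distrib, Finset.sum_comm (s := range h) (t := range N)]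
    rw [Finset.sum_const, card_range, nsmul_eq_mul]; ring
  have e2 : (h : ℝ) * ‖∑ n ∈ range N, c n‖ = ‖(h : ℂ) * ∑ n ∈ range N, c n‖ := by
    rw [norm_mul, Complex.norm_natCast]
  rw [e2, e]
  refine (norm_sub_le _ _).trans (add_le_add (norm_sum_le _ _) ?_)
  refine (norm_sum_le _ _).trans ((Finset.sum_le_sum fun n hn =>
      (h1 n).trans (?_ : 2 * n * G ≤ 2 * h * G)).trans (le_of_eq ?_))
  · have : (n : ℝ) ≤ h := by exact_mod_cast (Finset.mem_range.1 hn).le
    gcongr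
  · rw [Finset.sum_const, card_range, nsmul_eq_mul]; ring

section
variable {Y : Type} [MetricSpace Y] [CompactSpace Y] [MeasurableSpace Y] [BorelSpace Y]

/-- empirical measures -/
noncomputable def emp (S : Y → Y) (y0 : Y) (N : ℕ) : Measure Y :=
  ((N : ENNReal) + 1)⁻¹ • ∑ n ∈ range (N + 1), Measure.dirac (S^[n] y0)

instance (S : Y → Y) (y0 : Y) (N : ℕ) : IsProbabilityMeasure (emp S y0 N) := by
  constructor
  unfold emp
  rw [Measure.smul_apply, Measure.finsetSum_apply]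
  simp only [measure_univ, Finset.sum_const, card_range, nsmul_eq_mul, mul_one, smul_eq_mul]
  push_cast
  exact ENNReal.inv_mul_cancel (by positivity) (by simp)

theorem emp_integral (S : Y → Y) (y0 : Y) (N : ℕ) (φ : C(Y, ℝ)) :
    ∫ y, φ y ∂(emp S y0 N) = (∑ n ∈ range (N + 1), φ (S^[n] y0)) / ((N + 1 : ℕ) : ℝ) := by
  unfold emp
  rw [integral_smul_measure, integral_finsetSum_measure]
  · simp only [integral_dirac]
    rw [smul_eq_mul, ENNReal.toReal_inv, div_eq_inv_mul]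
    congr 2
    rw [ENNReal.toReal_add (by simp) (by simp)]
    simp
  · intro i _
    exact integrable_dirac (by simp)

omit [MetricSpace Y] [CompactSpace Y] [BorelSpace Y] in
open Classical in
theorem emp_apply (S : Y → Y) (y0 : Y) (N : ℕ) (V : Set Y) (hV : MeasurableSet V) :
    (emp S y0 N V).toReal = (((range (N + 1)).filter (fun n => S^[n] y0 ∈ V)).card : ℝ) / ((N + 1 : ℕ) : ℝ) := by
  unfold emp
  rw [Measure.smul_apply, Measure.finsetSum_apply]
  simp only [Measure.dirac_apply' _ hV, smul_eq_mul]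
  rw [ENNReal.toReal_mul, ENNReal.toReal_inv, div_eq_inv_mul]
  congr 1
  · rw [ENNReal.toReal_add (by simp) (by simp)]
    simp
  · rw [ENNReal.toReal_sum (fun n _ => by by_cases h : S^[n] y0 ∈ V <;> simp [Set.indicator, h])]
    rw [Finset.card_filter, Nat.cast_sum]
    refine Finset.sum_congr rfl fun n _ => ?_
    by_cases h : S^[n] y0 ∈ V <;> simp [Set.indicator, h]

/-- empirical measures as probability measures -/
noncomputable def empP (S : Y → Y) (y0 : Y) (N : ℕ) : ProbabilityMeasure Y := ⟨emp S y0 N, inferInstance⟩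

omit [CompactSpace Y] [MeasurableSpace Y] [BorelSpace Y] in
theorem open_set (S : Y → Y) (hS : Continuous S) (g : Y → ℂ) (hg : Continuous g) {E : Type} (T : E → E) (X : Set E)
    (f : E → ℂ) (h : ℕ) (r : ℝ) :
    IsOpen {y : Y | ∃ x ∈ X, ∑ n ∈ range h, ‖g (S^[n] y) - f (T^[n] x)‖ < r} := by
  have e : {y : Y | ∃ x ∈ X, ∑ n ∈ range h, ‖g (S^[n] y) - f (T^[n] x)‖ < r} =
      ⋃ x ∈ X, {y : Y | ∑ n ∈ range h, ‖g (S^[n] y) - f (T^[n] x)‖ < r} := by
    ext y; simp
  rw [e]
  refine isOpen_biUnion fun x _ => isOpen_lt ?_ continuous_const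
  refine continuous_finsetSum _ fun n _ => ?_
  exact ((hg.comp (hS.iterate n)).sub continuous_const).norm

omit [CompactSpace Y] in
/-- the set of the points which are close to an orbit of `X` has large measure -/
theorem close_meas (S : Y → Y) (hS : Continuous S) (g : Y → ℂ) (hg : Continuous g) {E : Type} [TopologicalSpace E]
    [MeasurableSpace E] [OpensMeasurableSpace E] (T : E → E) (X : Set E) (lam : Measure (E × Y)) [IsProbabilityMeasure lam]
    (hinv : MeasurePreserving (Prod.map T S) lam lam) (hX : ∀ᵐ p ∂lam, p.1 ∈ X) (f : E → ℂ) (hf : Continuous f)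
    (C : ℝ) (hC : ∀ x, ‖f x‖ ≤ C) (G : ℝ) (hG : ∀ y, ‖g y‖ ≤ G) (ε : ℝ) (hε : 0 < ε)
    (hclose : ∫ p, ‖g p.2 - f p.1‖ ∂lam ≤ ε ^ 2) (h : ℕ) (hh : 1 ≤ h) :
    1 - ε / 2 ≤ ((lam.map Prod.snd) {y : Y | ∃ x ∈ X, ∑ n ∈ range h, ‖g (S^[n] y) - f (T^[n] x)‖ < 2 * ε * h}).toReal := by
  set V : Set Y := {y : Y | ∃ x ∈ X, ∑ n ∈ range h, ‖g (S^[n] y) - f (T^[n] x)‖ < 2 * ε * h} with hV
  have hVo : IsOpen V := open_set S hS g hg T X f h _
  have hh0 : (0 : ℝ) < h := by exact_mod_cast hh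
  set φ : E × Y → ℝ := fun p => ‖g p.2 - f p.1‖ with hφ
  have hφm : Measurable φ := ((hg.measurable.comp measurable_snd).sub (hf.measurable.comp measurable_fst)).norm
  have hφi : Integrable φ lam := by
    refine Integrable.of_bound hφm.aestronglyMeasurable (G + C) (Eventually.of_forall fun p => ?_)
    rw [Real.norm_eq_abs, abs_of_nonneg (norm_nonneg _)]
    exact (norm_sub_le _ _).trans (add_le_add (hG _) (hC _))
  have hit : ∀ n, MeasurePreserving ((Prod.map T S)^[n]) lam lam := fun n => hinv.iterate n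
  set Φ : E × Y → ℝ := fun p => ∑ n ∈ range h, φ ((Prod.map T S)^[n] p) with hΦ
  have hΦint : ∫ p, Φ p ∂lam = h * ∫ p, φ p ∂lam := by
    have e1 : ∫ p, Φ p ∂lam = ∑ n ∈ range h, ∫ p, φ ((Prod.map T S)^[n] p) ∂lam :=
      integral_finsetSum _ (fun n _ => ((hit n).integrable_comp hφm.aestronglyMeasurable).2 hφi)
    rw [e1, Finset.sum_congr rfl (fun n _ => ?_), Finset.sum_const, card_range, nsmul_eq_mul]
    have := integral_map (μ := lam) (hit n).measurable.aemeasurable (f := φ) hφm.aestronglyMeasurable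
    rw [(hit n).map_eq] at this
    exact this.symm
  have hΦi : Integrable Φ lam := integrable_finsetSum _ (fun n _ => ((hit n).integrable_comp hφm.aestronglyMeasurable).2 hφi)
  have hmark := mul_meas_ge_le_integral_of_nonneg (μ := lam) (f := Φ)
    (Eventually.of_forall fun p => Finset.sum_nonneg fun n _ => norm_nonneg _) hΦi (2 * ε * h)
  have hbad : (lam {p | 2 * ε * h ≤ Φ p}).toReal ≤ ε / 2 := by
    have h1 : 2 * ε * h * (lam {p | 2 * ε * h ≤ Φ p}).toReal ≤ h * ε ^ 2 := by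
      refine hmark.trans ?_
      rw [hΦint]
      exact mul_le_mul_of_nonneg_left hclose hh0.le
    have h2 : 0 < 2 * ε * h := by positivity
    have h3 : (lam {p | 2 * ε * h ≤ Φ p}).toReal ≤ h * ε ^ 2 / (2 * ε * h) := by
      rw [le_div_iff₀ h2]; linarith
    refine h3.trans (le_of_eq ?_)
    field_simp
  rw [Measure.map_apply measurable_snd hVo.measurableSet]
  have hsub : (Prod.snd ⁻¹' V : Set (E × Y))ᶜ ⊆ {p | 2 * ε * h ≤ Φ p} ∪ {p | p.1 ∉ X} := by
    intro p hp
    by_contra hcon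
    rw [Set.mem_union, not_or] at hcon
    obtain ⟨h1, h2⟩ := hcon
    simp only [Set.mem_ofPred_eq, not_not, not_le] at h1 h2
    apply hp
    refine ⟨p.1, h2, lt_of_le_of_lt (le_of_eq ?_) h1⟩
    refine Finset.sum_congr rfl fun n _ => ?_
    rw [hφ]
    simp only [Prod.map_iterate, Prod.map_fst, Prod.map_snd]
  have hc : (lam (Prod.snd ⁻¹' V)ᶜ).toReal ≤ ε / 2 := by
    have h0 : lam {p : E × Y | p.1 ∉ X} = 0 := hX
    have h1 : lam (Prod.snd ⁻¹' V)ᶜ ≤ lam {p | 2 * ε * h ≤ Φ p} := by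
      refine (measure_mono hsub).trans ((measure_union_le _ _).trans ?_)
      rw [h0, add_zero]
    exact (ENNReal.toReal_mono (measure_ne_top _ _) h1).trans hbad
  have hm : MeasurableSet (Prod.snd ⁻¹' V : Set (E × Y)) := measurable_snd hVo.measurableSet
  rw [prob_compl_eq_one_sub hm, ENNReal.toReal_sub_of_le prob_le_one (by simp)] at hc
  simp only [ENNReal.toReal_one] at hc
  linarith

open Classical in
theorem key (S : Y → Y) (hS : Continuous S) (g : Y → ℂ) (hg : Continuous g) {E : Type} [TopologicalSpace E]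
    [MeasurableSpace E] [OpensMeasurableSpace E] (T : E → E) (X : Set E) (hLU : LUS T X) (lam : Measure (E × Y))
    [IsProbabilityMeasure lam]
    (hinv : MeasurePreserving (Prod.map T S) lam lam) (hX : ∀ᵐ p ∂lam, p.1 ∈ X) (f : E → ℂ) (hf : Continuous f)
    (C : ℝ) (hC : ∀ x, ‖f x‖ ≤ C) (G : ℝ) (hG : ∀ y, ‖g y‖ ≤ G) (ε : ℝ) (hε : 0 < ε)
    (hclose : ∫ p, ‖g p.2 - f p.1‖ ∂lam ≤ ε ^ 2) (ν : ProbabilityMeasure Y) (hν : lam.map Prod.snd = (ν : Measure Y))
    (y0 : Y) (N : ℕ → ℕ) (hN : Tendsto N atTop atTop)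
    (hconv : Tendsto (fun k => empP S y0 (N k)) atTop (𝓝 ν)) :
    ∀ᶠ k in atTop, ‖∑ n ∈ range (N k + 1), mc n * g (S^[n] y0)‖ ≤ (4 + G) * ε * ((N k + 1 : ℕ) : ℝ) := by
  have hG0 : 0 ≤ G := (norm_nonneg _).trans (hG y0)
  obtain ⟨h₀, H⟩ := hLU f hf ε hε
  set h : ℕ := max h₀ 1 with hh
  have hh1 : 1 ≤ h := le_max_right _ _
  have hh0 : (0 : ℝ) < h := by exact_mod_cast hh1
  obtain ⟨N₀, H⟩ := H h (le_max_left _ _)
  set V : Set Y := {y : Y | ∃ x ∈ X, ∑ n ∈ range h, ‖g (S^[n] y) - f (T^[n] x)‖ < 2 * ε * h} with hV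
  have hVo : IsOpen V := open_set S hS g hg T X f h _
  have hmeas := close_meas S hS g hg T X lam hinv hX f hf C hC G hG ε hε hclose h hh1
  rw [hν] at hmeas
  have hport := ProbabilityMeasure.le_liminf_measure_open_of_tendsto hconv hVo
  have hev : ∀ᶠ k in atTop, 1 - ε ≤ ((emp S y0 (N k)) V).toReal := by
    by_cases hε1 : 1 - ε ≤ 0
    · exact Eventually.of_forall fun k => hε1.trans ENNReal.toReal_nonneg
    · rw [not_le] at hε1
      have hlt : ENNReal.ofReal (1 - ε) < (ν : Measure Y) V := by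
        rw [← ENNReal.ofReal_toReal (measure_ne_top (ν : Measure Y) V)]
        exact (ENNReal.ofReal_lt_ofReal_iff_of_nonneg hε1.le).2 (by linarith)
      filter_upwards [Filter.eventually_lt_of_lt_liminf (lt_of_lt_of_le hlt hport)] with k hk
      exact (ENNReal.ofReal_le_iff_le_toReal (measure_ne_top _ _)).1 hk.le
  have hXne : X.Nonempty := by
    by_contra hne
    rw [Set.not_nonempty_iff_eq_empty] at hne
    rw [hne] at hX
    have h1 : ∀ᵐ p ∂lam, False := by
      filter_upwards [hX] with p hp using hp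
    rw [ae_iff] at h1
    simp at h1
  obtain ⟨x0, hx0⟩ := hXne
  filter_upwards [hev, hN.eventually_ge_atTop N₀, hN.eventually_ge_atTop ⌈2 * h * G / ε⌉₊] with k hk1 hk2 hk3
  set M : ℕ := N k + 1 with hM
  have hM0 : (0 : ℝ) < M := by exact_mod_cast Nat.succ_pos _
  rw [emp_apply S y0 (N k) V hVo.measurableSet, ← hM, le_div_iff₀ hM0] at hk1
  have hbig : 2 * h * G ≤ ε * M := by
    have h1 : 2 * h * G / ε ≤ (N k : ℝ) := (Nat.le_ceil _).trans (by exact_mod_cast hk3)
    rw [div_le_iff₀ hε] at h1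
    have h2 : (N k : ℝ) ≤ M := by rw [hM]; push_cast; linarith
    nlinarith
  have hyex : ∀ x : ℕ, ∃ z ∈ X, S^[x] y0 ∈ V → ∑ n ∈ range h, ‖g (S^[n] (S^[x] y0)) - f (T^[n] z)‖ < 2 * ε * h := by
    intro x
    by_cases hx : S^[x] y0 ∈ V
    · obtain ⟨z, hz, hz2⟩ := hx
      exact ⟨z, hz, fun _ => hz2⟩
    · exact ⟨x0, hx0, fun h => absurd h hx⟩
  choose y hyX hyV using hyex
  have hmain := H M (hk2.trans (by omega)) y hyX
  have hpt : ∀ x ∈ range M, ‖∑ n ∈ range h, mc (x + n) * g (S^[x + n] y0)‖ ≤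
      ‖∑ n ∈ range h, mc (x + n) * f (T^[n] (y x))‖ + 2 * ε * h +
        (if S^[x] y0 ∈ V then 0 else h * G) := by
    intro x _
    have e : ∀ n, S^[x + n] y0 = S^[n] (S^[x] y0) := fun n => by
      rw [add_comm, Function.iterate_add_apply]
    by_cases hx : S^[x] y0 ∈ V
    · rw [if_pos hx, add_zero]
      have e1 : ∑ n ∈ range h, mc (x + n) * g (S^[x + n] y0) =
          ∑ n ∈ range h, mc (x + n) * f (T^[n] (y x)) +
            ∑ n ∈ range h, mc (x + n) * (g (S^[n] (S^[x] y0)) - f (T^[n] (y x))) := by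
        rw [← Finset.sum_add_distrib]
        refine Finset.sum_congr rfl fun n _ => ?_
        rw [e n]; ring
      rw [e1]
      refine (norm_add_le _ _).trans (add_le_add le_rfl ?_)
      refine (norm_sum_le _ _).trans (le_trans (Finset.sum_le_sum fun n _ => ?_) (hyV x hx).le)
      rw [norm_mul]
      exact mul_le_of_le_one_left (norm_nonneg _) (mc_le _)
    · rw [if_neg hx]
      have h1 : ‖∑ n ∈ range h, mc (x + n) * g (S^[x + n] y0)‖ ≤ h * G := by
        have h2 : ∀ n ∈ range h, ‖mc (x + n) * g (S^[x + n] y0)‖ ≤ G := fun n _ => by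
          rw [norm_mul]
          exact (mul_le_of_le_one_left (norm_nonneg _) (mc_le _)).trans (hG _)
        refine (norm_sum_le _ _).trans ((Finset.sum_le_sum h2).trans (le_of_eq ?_))
        rw [Finset.sum_const, card_range, nsmul_eq_mul]
      have h2 : 0 ≤ ‖∑ n ∈ range h, mc (x + n) * f (T^[n] (y x))‖ := norm_nonneg _
      have h3 : 0 ≤ 2 * ε * h := by positivity
      linarith
  have hsum := Finset.sum_le_sum hpt
  rw [Finset.sum_add_distrib, Finset.sum_add_distrib, Finset.sum_const, card_range, nsmul_eq_mul] at hsum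
  have hcount : ∑ x ∈ range M, (if S^[x] y0 ∈ V then (0 : ℝ) else h * G) ≤ h * G * (ε * M) := by
    have e1 : ∑ x ∈ range M, (if S^[x] y0 ∈ V then (0 : ℝ) else h * G) =
        h * G * (M - ((range M).filter (fun n => S^[n] y0 ∈ V)).card) := by
      have e2 : ∀ x, (if S^[x] y0 ∈ V then (0 : ℝ) else h * G) = h * G - (if S^[x] y0 ∈ V then h * G else 0) := by
        intro x; by_cases hx : S^[x] y0 ∈ V <;> simp [hx]
      rw [Finset.sum_congr rfl (fun x _ => e2 x), Finset.sum_sub_distrib, Finset.sum_const, card_range, nsmul_eq_mul,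
        ← Finset.sum_filter, Finset.sum_const, nsmul_eq_mul]
      ring
    rw [e1]
    exact mul_le_mul_of_nonneg_left (by linarith) (by positivity)
  have hsh := shift_le (fun n => mc n * g (S^[n] y0)) G (fun n => by
    rw [norm_mul]
    exact (mul_le_of_le_one_left (norm_nonneg _) (mc_le _)).trans (hG _)) M h
  have hfin : (h : ℝ) * ‖∑ n ∈ range M, mc n * g (S^[n] y0)‖ ≤ h * ((4 + G) * ε * M) := by
    nlinarith [mul_le_mul_of_nonneg_left hbig hh0.le]
  exact le_of_mul_le_mul_left hfin hh0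

/-- **Models of joinings.** If every measure for which `y0` is quasi-generic has, for every `ε`, a joining with a locally
uniform system such that `g` is `ε`-close in `L¹` to a continuous function of the first coordinate, then the Moebius function is
orthogonal to `g (S^n y0)` (Cesàro averages). -/
theorem models (S : Y → Y) (hS : Continuous S) (g : Y → ℂ) (hg : Continuous g) (y0 : Y)
    (H : ∀ ν : Measure Y, IsProbabilityMeasure ν → (∃ N : ℕ → ℕ, Tendsto N atTop atTop ∧ ∀ φ : C(Y, ℝ),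
        Tendsto (fun k => (∑ n ∈ range (N k), φ (S^[n] y0)) / (N k : ℝ)) atTop (𝓝 (∫ y, φ y ∂ν))) →
      ∀ ε : ℝ, 0 < ε → ∃ (E : Type) (_ : TopologicalSpace E) (_ : MeasurableSpace E) (_ : OpensMeasurableSpace E)
        (T : E → E) (X : Set E), LUS T X ∧ ∃ lam : Measure (E × Y), IsProbabilityMeasure lam ∧
          MeasurePreserving (Prod.map T S) lam lam ∧ lam.map Prod.snd = ν ∧ (∀ᵐ p ∂lam, p.1 ∈ X) ∧
          ∃ f : E → ℂ, Continuous f ∧ (∃ C : ℝ, ∀ x, ‖f x‖ ≤ C) ∧ ∫ p, ‖g p.2 - f p.1‖ ∂lam ≤ ε) :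
    Tendsto (fun N : ℕ => (∑ n ∈ range N, mc n * g (S^[n] y0)) / (N : ℂ)) atTop (𝓝 0) := by
  obtain ⟨G, hG⟩ : ∃ G : ℝ, ∀ y, ‖g y‖ ≤ G := by
    obtain ⟨G, hG⟩ := (isCompact_univ (X := Y)).exists_bound_of_continuousOn hg.continuousOn
    exact ⟨G, fun y => hG y (Set.mem_univ y)⟩
  have hG0 : 0 ≤ G := (norm_nonneg _).trans (hG y0)
  refine tendsto_of_subseq_tendsto fun ns hns => ?_
  obtain ⟨ν, ms, hms, hconv⟩ := CompactSpace.tendsto_subseq (fun k => empP S y0 (ns k - 1))
  refine ⟨ms, ?_⟩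
  set N : ℕ → ℕ := fun k => ns (ms k) with hNdef
  have hN : Tendsto N atTop atTop := hns.comp hms.tendsto_atTop
  have hN1 : Tendsto (fun k => N k - 1) atTop atTop := (tendsto_sub_atTop_nat 1).comp hN
  have hpos : ∀ᶠ k in atTop, N k - 1 + 1 = N k := by
    filter_upwards [hN.eventually_ge_atTop 1] with k hk
    omega
  have hconv' : Tendsto (fun k => empP S y0 (N k - 1)) atTop (𝓝 ν) := hconv
  have hq : ∃ N : ℕ → ℕ, Tendsto N atTop atTop ∧ ∀ φ : C(Y, ℝ),
        Tendsto (fun k => (∑ n ∈ range (N k), φ (S^[n] y0)) / (N k : ℝ)) atTop (𝓝 (∫ y, φ y ∂(ν : Measure Y))) := by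
    refine ⟨N, hN, fun φ => ?_⟩
    have h1 := (ProbabilityMeasure.tendsto_iff_forall_integral_tendsto.1 hconv') (BoundedContinuousFunction.mkOfCompact φ)
    refine h1.congr' ?_
    filter_upwards [hpos] with k hk
    have h2 := emp_integral S y0 (N k - 1) φ
    rw [hk] at h2
    exact h2
  rw [Metric.tendsto_atTop]
  intro δ hδ
  set ε : ℝ := δ / (2 * (4 + G)) with hε
  have hε0 : 0 < ε := by positivity
  obtain ⟨E, _, _, _, T, X, hLU, lam, hl1, hinv, hmarg, hX, f, hf, ⟨C, hC⟩, hclose⟩ :=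
    H ν inferInstance hq (ε ^ 2) (by positivity)
  have hk := key S hS g hg T X hLU lam hinv hX f hf C hC G hG ε hε0 hclose ν hmarg y0 (fun k => N k - 1) hN1 hconv'
  have hfin := (hk.and (hpos.and (hN.eventually_ge_atTop 1)))
  obtain ⟨K, hK⟩ := eventually_atTop.1 hfin
  refine ⟨K, fun k hkK => ?_⟩
  obtain ⟨h1, h2, h3⟩ := hK k hkK
  rw [dist_zero_right, norm_div, Complex.norm_natCast]
  rw [h2] at h1
  have hM : (0 : ℝ) < (N k : ℝ) := by exact_mod_cast h3
  have h4 : (4 + G) * ε * (N k : ℝ) = δ / 2 * N k := by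
    rw [hε]; field_simp
  rw [h4] at h1
  show ‖∑ n ∈ range (N k), mc n * g (S^[n] y0)‖ / (N k : ℝ) < δ
  rw [div_lt_iff₀ hM]
  nlinarith

end

end Pool.Agent.Lib.MP_3e612f_nt.LOM
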