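import Pool.Agent.Lib.MP_3e612f_nt.LO.M.Words
import Pool.Agent.Lib.MP_3e612f_nt.LO.M.Models
import Pool.Agent.Lib.MP_3e612f_nt.EM.U.Main

/-!
The universal subshift of the phases with interactions of `d` windows modulo `m` is locally uniform.
-/

set_option autoImplicit false

namespace Pool.Agent.Lib.MP_3e612f_nt.LOM

open Finset
open Pool.Agent.Lib.MP_3e612f_nt.PI (ee mc)
open Pool.Agent.Lib.MP_3e612f_nt.EM

/-- the shift -/
def sh {A : Type} (x : ℕ → A) (i : ℕ) : A := x (i + 1)

theorem sh_iter {A : Type} (n : ℕ) (x : ℕ → A) : sh^[n] x = fun i => x (i + n) := by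
  induction n generalizing x with
  | zero => rfl
  | succ n ih =>
    rw [Function.iterate_succ_apply, ih]
    funext i
    show x (i + n + 1) = x (i + (n + 1))
    rfl

private theorem Local_unif {A : Type} [AddCommGroup A] [Finite A] [TopologicalSpace A]
    [DiscreteTopology A] {f : (ℕ → A) → ℂ}
    (hf : Continuous f) {ε : ℝ} (hε : 0 < ε) :
    ∃ m : ℕ, ∀ x y : ℕ → A, (∀ i < m, x i = y i) → ‖f x - f y‖ ≤ ε := by
  letI : Group A := (inferInstance : Group (Multiplicative A))
  obtain ⟨m, hm⟩ := PS.unif_coord isClosed_univ hf.continuousOn hε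
  exact ⟨m, fun x y h => hm x (Set.mem_univ _) y (Set.mem_univ _) h⟩

theorem ux_lus (q m d : ℕ) (hq : 2 ≤ q) (hd : 1 ≤ d) (hmain : LMain q (q * m) d) (A : Type) [AddCommGroup A] [Finite A]
    [TopologicalSpace A] [DiscreteTopology A] : LUS (sh : (ℕ → A) → ℕ → A) (UXM q m d A) := by
  classical
  intro f hf ε hε
  obtain ⟨C, hC0, hC⟩ : ∃ C : ℝ, 0 < C ∧ ∀ x, ‖f x‖ ≤ C := by
    obtain ⟨C, hC⟩ := (isCompact_univ (X := ℕ → A)).exists_bound_of_continuousOn hf.continuousOn
    exact ⟨max C 1, lt_of_lt_of_le one_pos (le_max_right _ _), fun x => (hC x (Set.mem_univ _)).trans (le_max_left _ _)⟩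
  obtain ⟨k, hk⟩ := Local_unif hf (half_pos hε)
  obtain ⟨h0, hh0⟩ := words_local q m d k hq hd hmain A (ε := ε / (2 * C)) (by positivity)
  refine ⟨h0, fun h hh => ?_⟩
  obtain ⟨X0, hX0⟩ := hh0 h hh
  refine ⟨X0, fun X hX y hy => ?_⟩
  have hy2 : ∀ x, ∃ (F : (Fin d → ℕ) → (Fin d → ℕ) → A) (L s : ℕ), ∀ i < h + k, y x i = phm q m d L F (i + s) :=
    fun x => hy x (h + k)
  choose F L s hFL using hy2
  set ext : (Fin k → A) → ℕ → A := fun u i => if hi : i < k then u ⟨i, hi⟩ else 0 with hext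
  have hw1 : ∀ (x : ℕ) (u : Fin k → A), ‖f (ext u) / C‖ ≤ 1 := by
    intro x u
    rw [norm_div, Complex.norm_real, Real.norm_eq_abs, abs_of_pos hC0, div_le_one hC0]
    exact hC _
  have hmain2 := hX0 X hX L s F (fun _ u => f (ext u) / C) hw1
  have hpt : ∀ x ∈ range X, ‖∑ n ∈ range h, mc (x + n) * f (sh^[n] (y x))‖ ≤
      C * ‖∑ n ∈ range h, mc (x + n) * (f (ext (fun j : Fin k => phm q m d (L x) (F x) (n + s x + j))) / C)‖ +
        ε / 2 * h := by
    intro x _
    have e1 : ∑ n ∈ range h, mc (x + n) * f (sh^[n] (y x)) =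
        C * ∑ n ∈ range h, mc (x + n) * (f (ext (fun j : Fin k => phm q m d (L x) (F x) (n + s x + j))) / C) +
          ∑ n ∈ range h, mc (x + n) * (f (sh^[n] (y x)) -
            f (ext (fun j : Fin k => phm q m d (L x) (F x) (n + s x + j)))) := by
      rw [Finset.mul_sum, ← Finset.sum_add_distrib]
      refine Finset.sum_congr rfl fun n _ => ?_
      have : (C : ℂ) ≠ 0 := by exact_mod_cast hC0.ne'
      field_simp
      ring
    rw [e1]
    refine (norm_add_le _ _).trans (add_le_add (le_of_eq ?_) ?_)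
    · rw [norm_mul, Complex.norm_real, Real.norm_eq_abs, abs_of_pos hC0]
    · have h2 : ∀ n ∈ range h, ‖mc (x + n) * (f (sh^[n] (y x)) -
            f (ext (fun j : Fin k => phm q m d (L x) (F x) (n + s x + j))))‖ ≤ ε / 2 := by
        intro n hn
        rw [mem_range] at hn
        rw [norm_mul]
        refine (mul_le_of_le_one_left (norm_nonneg _) (mc_norm_le _)).trans ?_
        apply hk
        intro i hi
        rw [sh_iter, hext]
        simp only [hi, dif_pos]
        rw [hFL x (i + n) (by omega)]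
        congr 1
        omega
      refine (norm_sum_le _ _).trans ((Finset.sum_le_sum h2).trans (le_of_eq ?_))
      rw [Finset.sum_const, card_range, nsmul_eq_mul]; ring
  refine (Finset.sum_le_sum hpt).trans ?_
  rw [Finset.sum_add_distrib, ← Finset.mul_sum, Finset.sum_const, card_range, nsmul_eq_mul]
  have h3 := mul_le_mul_of_nonneg_left hmain2 hC0.le
  have h4 : C * (ε / (2 * C) * h * X) = ε / 2 * h * X := by
    field_simp
  rw [h4] at h3
  linarith

end Pool.Agent.Lib.MP_3e612f_nt.LOM
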