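import Pool.Agent.Lib.MP_3e612f_nt.LO.M.Models

/-!
The uniform form: if every invariant measure of a topological system `Y` is described, up to small errors in
`L¹`, by one of countably many locally uniform sets of sequences, then `Y` itself is locally uniform.
-/

set_option autoImplicit false

namespace Pool.Agent.Lib.MP_3e612f_nt.LOM

open Finset MeasureTheory Filter Topology
open Pool.Agent.Lib.MP_3e612f_nt.PI (mc)

/-- local uniformity of the Moebius function for a set of sequences -/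
def LUW (W : Set (ℕ → ℂ)) : Prop :=
  ∀ ε : ℝ, 0 < ε → ∃ h₀ : ℕ, ∀ h ≥ h₀, ∃ N₀ : ℕ, ∀ N ≥ N₀, ∀ y : ℕ → ℕ → ℂ, (∀ x, y x ∈ W) →
    ∑ x ∈ range N, ‖∑ n ∈ range h, mc (x + n) * y x n‖ ≤ ε * h * N

section
variable {Y : Type} [MetricSpace Y] [CompactSpace Y] [MeasurableSpace Y] [BorelSpace Y]

/-- limits of the empirical measures of longer and longer orbit segments are invariant -/
theorem emp_lim_inv (S : Y → Y) (hS : Continuous S) (y : ℕ → Y) (N : ℕ → ℕ)
    (hN : Tendsto N atTop atTop) (ν : ProbabilityMeasure Y)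
    (h : Tendsto (fun k => empP S (y k) (N k)) atTop (𝓝 ν)) :
    MeasurePreserving S (ν : Measure Y) (ν : Measure Y) := by
  refine ⟨hS.measurable, ?_⟩
  have : IsProbabilityMeasure ((ν : Measure Y).map S) :=
    Measure.isProbabilityMeasure_map hS.measurable.aemeasurable
  refine ext_of_forall_integral_eq_of_IsFiniteMeasure fun φ => ?_
  rw [integral_map hS.measurable.aemeasurable φ.continuous.measurable.aestronglyMeasurable]
  set φ' : BoundedContinuousFunction Y ℝ := φ.compContinuous ⟨S, hS⟩ with hφ'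
  have h1 := (ProbabilityMeasure.tendsto_iff_forall_integral_tendsto.1 h) φ
  have h2 := (ProbabilityMeasure.tendsto_iff_forall_integral_tendsto.1 h) φ'
  have h3 : Tendsto (fun k => ∫ z, φ' z ∂(empP S (y k) (N k) : Measure Y) -
      ∫ z, φ z ∂(empP S (y k) (N k) : Measure Y)) atTop (𝓝 0) := by
    have h4 : ∀ k, ∫ z, φ' z ∂(empP S (y k) (N k) : Measure Y) -
        ∫ z, φ z ∂(empP S (y k) (N k) : Measure Y) =
        (φ (S^[N k + 1] (y k)) - φ (y k)) / ((N k + 1 : ℕ) : ℝ) := by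
      intro k
      have e1 : ∫ z, φ' z ∂(empP S (y k) (N k) : Measure Y) =
          (∑ n ∈ range (N k + 1), φ' (S^[n] (y k))) / ((N k + 1 : ℕ) : ℝ) :=
        emp_integral S (y k) (N k) φ'.toContinuousMap
      have e2 : ∫ z, φ z ∂(empP S (y k) (N k) : Measure Y) =
          (∑ n ∈ range (N k + 1), φ (S^[n] (y k))) / ((N k + 1 : ℕ) : ℝ) :=
        emp_integral S (y k) (N k) φ.toContinuousMap
      rw [e1, e2, ← sub_div]
      congr 1
      have e3 : ∀ n, φ' (S^[n] (y k)) = φ (S^[n + 1] (y k)) := by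
        intro n
        rw [Function.iterate_succ_apply']
        rfl
      rw [Finset.sum_congr rfl fun n _ => e3 n,
        Finset.sum_range_succ' (fun n => φ (S^[n] (y k))) (N k),
        Finset.sum_range_succ (fun n => φ (S^[n + 1] (y k))) (N k)]
      simp
    simp_rw [h4]
    have h5 : Tendsto (fun k => (2 * ‖φ‖) / ((N k + 1 : ℕ) : ℝ)) atTop (𝓝 0) := by
      have h6 : Tendsto (fun k => N k + 1) atTop atTop := (tendsto_add_atTop_nat 1).comp hN
      exact (tendsto_const_div_atTop_nhds_zero_nat (2 * ‖φ‖)).comp h6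
    refine squeeze_zero_norm (fun k => ?_) h5
    rw [norm_div, Real.norm_eq_abs (((N k + 1 : ℕ) : ℝ)), abs_of_nonneg (Nat.cast_nonneg _)]
    gcongr
    refine (norm_sub_le _ _).trans ?_
    linarith [φ.norm_coe_le_norm (S^[N k + 1] (y k)), φ.norm_coe_le_norm (y k)]
  have h7 := tendsto_nhds_unique h3 (h2.sub h1)
  have h8 : ∫ z, φ' z ∂(ν : Measure Y) = ∫ z, φ z ∂(ν : Measure Y) := by linarith
  exact h8

open Classical in
/-- long orbit segments spend most of their time in one of finitely many sets -/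
theorem dens (S : Y → Y) (hS : Continuous S) (V : ℕ → Set Y) (hV : ∀ j, IsOpen (V j)) (ε : ℝ)
    (hε : 0 < ε)
    (H : ∀ ν : Measure Y, IsProbabilityMeasure ν → MeasurePreserving S ν ν →
      ∃ j, 1 - ε ≤ (ν (V j)).toReal) :
    ∃ J : ℕ, ∃ H0 : ℕ, ∀ h ≥ H0, ∀ y : Y, ∃ j < J,
      (1 - 2 * ε) * h ≤ (((range h).filter (fun n => S^[n] y ∈ V j)).card : ℝ) := by
  by_contra hcon
  push Not at hcon
  choose h hh y hy using fun J => hcon J (J + 1)
  obtain ⟨ν, ms, hms, hconv⟩ := CompactSpace.tendsto_subseq (fun J => empP S (y J) (h J - 1))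
  have hN : Tendsto (fun k => h (ms k) - 1) atTop atTop := by
    refine tendsto_atTop_mono (fun k => ?_) hms.tendsto_atTop
    have := hh (ms k)
    omega
  have hinv := emp_lim_inv S hS (fun k => y (ms k)) (fun k => h (ms k) - 1) hN ν hconv
  obtain ⟨j, hj⟩ := H ν inferInstance hinv
  rcases le_or_gt (1 - 2 * ε) 0 with h0 | h0
  · have h1 := hy (j + 1) j (Nat.lt_succ_self j)
    have h2 : (1 - 2 * ε) * h (j + 1) ≤ 0 :=
      mul_nonpos_of_nonpos_of_nonneg h0 (Nat.cast_nonneg _)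
    have h3 : (0:ℝ) ≤ (((range (h (j + 1))).filter (fun n => S^[n] (y (j + 1)) ∈ V j)).card : ℝ) :=
      Nat.cast_nonneg _
    linarith
  · have hport := ProbabilityMeasure.le_liminf_measure_open_of_tendsto hconv (hV j)
    have hlt : ENNReal.ofReal (1 - 2 * ε) < (ν : Measure Y) (V j) := by
      rw [← ENNReal.ofReal_toReal (measure_ne_top (ν : Measure Y) (V j))]
      exact (ENNReal.ofReal_lt_ofReal_iff_of_nonneg h0.le).2 (by linarith)
    have hev := Filter.eventually_lt_of_lt_liminf (lt_of_lt_of_le hlt hport)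
    obtain ⟨k, hk1, hk2⟩ := (hev.and (hms.tendsto_atTop.eventually_gt_atTop j)).exists
    have h1 := hy (ms k) j hk2
    have h2 : (1 - 2 * ε) ≤ ((emp S (y (ms k)) (h (ms k) - 1)) (V j)).toReal :=
      (ENNReal.ofReal_le_iff_le_toReal (measure_ne_top _ _)).1 hk1.le
    have h3 : h (ms k) - 1 + 1 = h (ms k) := by
      have := hh (ms k)
      omega
    rw [emp_apply S (y (ms k)) (h (ms k) - 1) (V j) (hV j).measurableSet, h3] at h2
    have h4 : (0:ℝ) < h (ms k) := by
      have := hh (ms k)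
      exact_mod_cast (by omega : 0 < h (ms k))
    rw [le_div_iff₀ h4] at h2
    linarith

/-- the estimate for one orbit segment -/
theorem unif_one (c : ℕ → ℂ) (G : ℝ) (hc : ∀ n, ‖c n‖ ≤ G) (H h : ℕ) (hh : 1 ≤ h) (ε : ℝ)
    (hε : 0 < ε) (P : ℕ → Prop) [DecidablePred P]
    (hP : (1 - 2 * ε) * H ≤ (((range H).filter P).card : ℝ)) (b : ℕ → ℕ → ℂ)
    (hb : ∀ n, P n → ‖∑ i ∈ range h, c (n + i)‖ ≤ ‖∑ i ∈ range h, b n i‖ + ε * h) :
    ‖∑ n ∈ range H, c n‖ ≤ (1 / (h : ℝ)) * ∑ n ∈ range H, ‖∑ i ∈ range h, b n i‖ +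
      (ε * H + 2 * ε * H * G + 2 * h * G) := by
  have hG : 0 ≤ G := (norm_nonneg _).trans (hc 0)
  have hh0 : (0:ℝ) < h := by exact_mod_cast hh
  have h1 := shift_le c G hc H h
  have h2 : ∑ n ∈ range H, ‖∑ i ∈ range h, c (n + i)‖ ≤
      ∑ n ∈ range H, (‖∑ i ∈ range h, b n i‖ + ε * h + if P n then 0 else h * G) := by
    refine sum_le_sum fun n _ => ?_
    by_cases hn : P n
    · rw [if_pos hn, add_zero]
      exact hb n hn
    · rw [if_neg hn]
      have h3 : ‖∑ i ∈ range h, c (n + i)‖ ≤ h * G := by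
        refine (norm_sum_le _ _).trans ((sum_le_sum fun i _ => hc (n + i)).trans (le_of_eq ?_))
        rw [sum_const, card_range, nsmul_eq_mul]
      have h4 : 0 ≤ ‖∑ i ∈ range h, b n i‖ := norm_nonneg _
      have h5 : 0 ≤ ε * h := by positivity
      linarith
  have h3 : ∑ n ∈ range H, (if P n then (0:ℝ) else h * G) ≤ h * G * (2 * ε * H) := by
    have e1 : ∑ n ∈ range H, (if P n then (0:ℝ) else h * G) =
        h * G * (H - ((range H).filter P).card) := by
      have e2 : ∀ n, (if P n then (0 : ℝ) else h * G) = h * G - (if P n then h * G else 0) := by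
        intro n; by_cases hn : P n <;> simp [hn]
      rw [Finset.sum_congr rfl (fun n _ => e2 n), Finset.sum_sub_distrib, Finset.sum_const,
        card_range, nsmul_eq_mul, ← Finset.sum_filter, Finset.sum_const, nsmul_eq_mul]
      ring
    rw [e1]
    exact mul_le_mul_of_nonneg_left (by linarith) (by positivity)
  rw [sum_add_distrib, sum_add_distrib, sum_const, card_range, nsmul_eq_mul] at h2
  have h4 : (h : ℝ) * ‖∑ n ∈ range H, c n‖ ≤ h * ((1 / (h : ℝ)) *
      ∑ n ∈ range H, ‖∑ i ∈ range h, b n i‖ + (ε * H + 2 * ε * H * G + 2 * h * G)) := by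
    have e : h * ((1 / (h : ℝ)) * ∑ n ∈ range H, ‖∑ i ∈ range h, b n i‖ +
        (ε * H + 2 * ε * H * G + 2 * h * G)) = ∑ n ∈ range H, ‖∑ i ∈ range h, b n i‖ +
        (H * (ε * h) + h * G * (2 * ε * H) + 2 * h * h * G) := by
      field_simp
    rw [e]
    linarith
  exact le_of_mul_le_mul_left h4 hh0

/-- the sum over shifted families -/
theorem unif_shift {W : Set (ℕ → ℂ)} {δ : ℝ} {h N₀ : ℕ}
    (hW : ∀ N ≥ N₀, ∀ y : ℕ → ℕ → ℂ, (∀ x, y x ∈ W) →
      ∑ x ∈ range N, ‖∑ n ∈ range h, mc (x + n) * y x n‖ ≤ δ * h * N) (hδ : 0 ≤ δ)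
    (N H n : ℕ) (hN : N₀ ≤ N) (hn : n ≤ H) (w : ℕ → ℕ → ℂ) (hw : ∀ x, w x ∈ W) :
    ∑ x ∈ range N, ‖∑ i ∈ range h, mc (x + n + i) * w x i‖ ≤ δ * h * (N + H) := by
  have h1 := hW (n + N) (by omega) (fun x => w (x - n)) (fun x => hw _)
  have h2 : ∑ x ∈ range N, ‖∑ i ∈ range h, mc (x + n + i) * w x i‖ ≤
      ∑ x ∈ range (n + N), ‖∑ i ∈ range h, mc (x + i) * w (x - n) i‖ := by
    rw [Finset.sum_range_add]
    have h3 : 0 ≤ ∑ x ∈ range n, ‖∑ i ∈ range h, mc (x + i) * w (x - n) i‖ :=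
      Finset.sum_nonneg fun _ _ => norm_nonneg _
    have h4 : ∑ x ∈ range N, ‖∑ i ∈ range h, mc (x + n + i) * w x i‖ =
        ∑ x ∈ range N, ‖∑ i ∈ range h, mc (n + x + i) * w (n + x - n) i‖ := by
      refine sum_congr rfl fun x _ => ?_
      rw [Nat.add_sub_cancel_left, Nat.add_comm x n]
    linarith
  refine h2.trans (h1.trans ?_)
  have h5 : ((n + N : ℕ) : ℝ) ≤ N + H := by
    push_cast
    have : (n : ℝ) ≤ H := by exact_mod_cast hn
    linarith
  exact mul_le_mul_of_nonneg_left h5 (by positivity)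

theorem unif_geo (J : ℕ) : ∑ j ∈ range J, ((1 / 2 : ℝ)) ^ (j + 1) ≤ 1 := by
  have h : ∀ J : ℕ, ∑ j ∈ range J, ((1 / 2 : ℝ)) ^ (j + 1) = 1 - (1 / 2) ^ J := by
    intro J
    induction J with
    | zero => simp
    | succ J ih =>
      rw [sum_range_succ, ih, pow_succ]
      ring
  rw [h]
  have : (0:ℝ) ≤ (1 / 2) ^ J := by positivity
  linarith

/-- **The uniform form.** If every invariant measure of `Y` is described, up to small errors, by one of
countably many locally uniform sets of sequences, then `g` is locally uniform on `Y`. -/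
theorem unif (S : Y → Y) (hS : Continuous S) (g : Y → ℂ) (hg : Continuous g)
    (W : ℕ → Set (ℕ → ℂ)) (hW : ∀ j, LUW (W j)) (hne : ∀ j, (W j).Nonempty)
    (H : ∀ ν : Measure Y, IsProbabilityMeasure ν → MeasurePreserving S ν ν → ∀ ε : ℝ, 0 < ε →
      ∃ j, ∀ h ≥ 1, 1 - ε ≤
        (ν {y : Y | ∃ w ∈ W j, ∑ n ∈ range h, ‖g (S^[n] y) - w n‖ < ε * h}).toReal)
    (ε : ℝ) (hε : 0 < ε) : ∃ h₀ : ℕ, ∀ h ≥ h₀, ∃ N₀ : ℕ, ∀ N ≥ N₀, ∀ y : ℕ → Y,
      ∑ x ∈ range N, ‖∑ n ∈ range h, mc (x + n) * g (S^[n] (y x))‖ ≤ ε * h * N := by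
  classical
  rcases isEmpty_or_nonempty Y with hY | hY
  · exact ⟨0, fun h _ => ⟨0, fun N _ y => (hY.false (y 0)).elim⟩⟩
  obtain ⟨y₀⟩ := hY
  obtain ⟨G, hG⟩ : ∃ G : ℝ, ∀ y, ‖g y‖ ≤ G := by
    obtain ⟨G, hG⟩ := (isCompact_univ (X := Y)).exists_bound_of_continuousOn hg.continuousOn
    exact ⟨G, fun y => hG y (Set.mem_univ y)⟩
  have hG0 : 0 ≤ G := (norm_nonneg _).trans (hG y₀)
  set δ : ℝ := ε / (4 + 2 * G) with hδdef
  have hδ : 0 < δ := by positivity
  choose h0 hh0 using fun j => hW j (δ * (1 / 2) ^ (j + 1)) (by positivity)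
  set hh : ℕ → ℕ := fun j => max (h0 j) 1 with hhdef
  have hh1 : ∀ j, 1 ≤ hh j := fun j => le_max_right _ _
  choose N1 hN1 using fun j => hh0 j (hh j) (le_max_left _ _)
  set V : ℕ → Set Y := fun j =>
    {y : Y | ∃ w ∈ W j, ∑ n ∈ range (hh j), ‖g (S^[n] y) - w n‖ < δ * hh j} with hVdef
  have hV : ∀ j, IsOpen (V j) := by
    intro j
    have e : V j = ⋃ w ∈ W j, {y : Y | ∑ n ∈ range (hh j), ‖g (S^[n] y) - w n‖ < δ * hh j} := by
      ext y; simp [hVdef]
    rw [e]
    refine isOpen_biUnion fun w _ => isOpen_lt ?_ continuous_const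
    refine continuous_finsetSum _ fun n _ => ?_
    exact ((hg.comp (hS.iterate n)).sub continuous_const).norm
  obtain ⟨J, H0, hJ⟩ := dens S hS V hV δ hδ fun ν hν hinv => by
    obtain ⟨j, hj⟩ := H ν hν hinv δ hδ
    exact ⟨j, hj (hh j) (hh1 j)⟩
  set hs : ℕ := ∑ j ∈ range J, hh j with hsdef
  have hhs : ∀ j < J, hh j ≤ hs := fun j hj =>
    Finset.single_le_sum (f := hh) (fun _ _ => Nat.zero_le _) (mem_range.2 hj)
  refine ⟨max H0 ⌈2 * hs * G / δ⌉₊, fun h hh' => ?_⟩
  have hH0 : H0 ≤ h := (le_max_left _ _).trans hh'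
  have hbig : 2 * hs * G ≤ δ * h := by
    have h1 : 2 * hs * G / δ ≤ (h : ℝ) :=
      (Nat.le_ceil _).trans (by exact_mod_cast (le_max_right _ _).trans hh')
    rw [div_le_iff₀ hδ] at h1
    linarith
  refine ⟨max h (∑ j ∈ range J, N1 j), fun N hN y => ?_⟩
  have hNh : h ≤ N := (le_max_left _ _).trans hN
  have hN1' : ∀ j < J, N1 j ≤ N := fun j hj =>
    (Finset.single_le_sum (f := N1) (fun _ _ => Nat.zero_le _) (mem_range.2 hj)).trans
      ((le_max_right _ _).trans hN)
  choose jx hjx hdx using fun x => hJ h hH0 (y x)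
  choose dft hdft using hne
  have hw : ∀ x n : ℕ, ∃ w ∈ W (jx x), S^[n] (y x) ∈ V (jx x) →
      ∑ i ∈ range (hh (jx x)), ‖g (S^[i] (S^[n] (y x))) - w i‖ < δ * hh (jx x) := by
    intro x n
    by_cases hx : S^[n] (y x) ∈ V (jx x)
    · obtain ⟨w, hw1, hw2⟩ := hx
      exact ⟨w, hw1, fun _ => hw2⟩
    · exact ⟨dft (jx x), hdft (jx x), fun h => absurd h hx⟩
  choose w hwW hwV using hw
  set w' : ℕ → ℕ → ℕ → ℕ → ℂ := fun j n x => if jx x = j then w x n else dft j with hw'def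
  have hw'W : ∀ j n x, w' j n x ∈ W j := by
    intro j n x
    rw [hw'def]
    dsimp only
    split_ifs with hx
    · rw [← hx]
      exact hwW x n
    · exact hdft j
  have hpt : ∀ x ∈ range N, ‖∑ n ∈ range h, mc (x + n) * g (S^[n] (y x))‖ ≤
      ∑ j ∈ range J, (1 / (hh j : ℝ)) * ∑ n ∈ range h,
        ‖∑ i ∈ range (hh j), mc (x + n + i) * w' j n x i‖ +
        (δ * h + 2 * δ * h * G + 2 * hs * G) := by
    intro x _
    have h1 := unif_one (fun n => mc (x + n) * g (S^[n] (y x))) G (fun n => by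
      rw [norm_mul]
      exact (mul_le_of_le_one_left (norm_nonneg _) (mc_le _)).trans (hG _)) h (hh (jx x))
      (hh1 _) δ hδ (fun n => S^[n] (y x) ∈ V (jx x)) (hdx x)
      (fun n i => mc (x + n + i) * w x n i) (fun n hn => by
        have e1 : ∑ i ∈ range (hh (jx x)), mc (x + (n + i)) * g (S^[n + i] (y x)) =
            ∑ i ∈ range (hh (jx x)), mc (x + n + i) * w x n i +
            ∑ i ∈ range (hh (jx x)), mc (x + n + i) * (g (S^[i] (S^[n] (y x))) - w x n i) := by
          rw [← Finset.sum_add_distrib]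
          refine Finset.sum_congr rfl fun i _ => ?_
          rw [← Function.iterate_add_apply, Nat.add_comm i n, Nat.add_assoc]
          ring
        rw [e1]
        refine (norm_add_le _ _).trans (add_le_add le_rfl ?_)
        refine (norm_sum_le _ _).trans
          (le_trans (Finset.sum_le_sum fun i _ => ?_) (hwV x n hn).le)
        rw [norm_mul]
        exact mul_le_of_le_one_left (norm_nonneg _) (mc_le _))
    refine h1.trans (add_le_add ?_ ?_)
    · have h2 := Finset.single_le_sum (f := fun j => (1 / (hh j : ℝ)) * ∑ n ∈ range h,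
        ‖∑ i ∈ range (hh j), mc (x + n + i) * w' j n x i‖) (s := range J)
        (fun j _ => by positivity) (mem_range.2 (hjx x))
      refine le_trans (le_of_eq ?_) h2
      congr 1
      refine Finset.sum_congr rfl fun n _ => ?_
      rw [hw'def]
      simp
    · have h3 : ((hh (jx x) : ℕ) : ℝ) ≤ hs := by exact_mod_cast hhs _ (hjx x)
      have h4 : 2 * (hh (jx x) : ℝ) * G ≤ 2 * hs * G := by gcongr
      linarith
  refine (Finset.sum_le_sum hpt).trans ?_
  rw [Finset.sum_add_distrib, Finset.sum_const, card_range, nsmul_eq_mul, Finset.sum_comm]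
  have hj : ∀ j ∈ range J, ∑ x ∈ range N, (1 / (hh j : ℝ)) * ∑ n ∈ range h,
      ‖∑ i ∈ range (hh j), mc (x + n + i) * w' j n x i‖ ≤
      (1 / 2) ^ (j + 1) * (δ * h * (2 * N)) := by
    intro j hj
    rw [mem_range] at hj
    have hj0 : (0:ℝ) < hh j := by exact_mod_cast hh1 j
    rw [← Finset.mul_sum, Finset.sum_comm]
    have h1 : ∀ n ∈ range h, ∑ x ∈ range N,
        ‖∑ i ∈ range (hh j), mc (x + n + i) * w' j n x i‖ ≤
        δ * (1 / 2) ^ (j + 1) * hh j * (N + h) := fun n hn =>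
      unif_shift (hN1 j) (by positivity) N h n (hN1' j hj) (mem_range.1 hn).le (w' j n)
        (hw'W j n)
    calc (1 / (hh j : ℝ)) * ∑ n ∈ range h, ∑ x ∈ range N,
          ‖∑ i ∈ range (hh j), mc (x + n + i) * w' j n x i‖
        ≤ (1 / (hh j : ℝ)) * ∑ n ∈ range h, δ * (1 / 2) ^ (j + 1) * hh j * (N + h) :=
          mul_le_mul_of_nonneg_left (Finset.sum_le_sum h1) (by positivity)
      _ = (1 / 2) ^ (j + 1) * (δ * h * (N + h)) := by
          rw [Finset.sum_const, card_range, nsmul_eq_mul]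
          field_simp
      _ ≤ (1 / 2) ^ (j + 1) * (δ * h * (2 * N)) := by
          have : (h : ℝ) ≤ N := by exact_mod_cast hNh
          gcongr
          linarith
  have h2 : ∑ j ∈ range J, ∑ x ∈ range N, (1 / (hh j : ℝ)) * ∑ n ∈ range h,
      ‖∑ i ∈ range (hh j), mc (x + n + i) * w' j n x i‖ ≤ δ * h * (2 * N) := by
    refine (Finset.sum_le_sum hj).trans ?_
    rw [← Finset.sum_mul]
    exact mul_le_of_le_one_left (by positivity) (unif_geo J)
  have h3 : (N : ℝ) * (δ * h + 2 * δ * h * G + 2 * hs * G) ≤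
      N * (δ * h + 2 * δ * h * G + δ * h) := by gcongr
  calc _ ≤ δ * h * (2 * N) + N * (δ * h + 2 * δ * h * G + δ * h) := add_le_add h2 h3
    _ = δ * (4 + 2 * G) * h * N := by ring
    _ = ε * h * N := by
        rw [hδdef]
        field_simp

end

end Pool.Agent.Lib.MP_3e612f_nt.LOM
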